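import Mathlib

/-! # K-points that separate: Nullstellensatz and a nonzero determinant -/

namespace Pool.Agent.QT

open MvPolynomial

/-- `y` satisfies no nonzero relation of degree at most `d` over `K`. -/
def Good (K : Type) {L : Type} [Field K] [Field L] [Algebra K L] {k : ℕ} (d : ℕ)
    (y : Fin k → L) : Prop :=
  ∀ P : MvPolynomial (Fin k) K, P.totalDegree ≤ d → aeval y P = 0 → P = 0

variable {K L : Type} [Field K] [IsAlgClosed K] [Field L] [Algebra K L]

/-- the `K`-points of the Zariski closure of `t` -/
def Pt (K : Type) {L : Type} [Field K] [Field L] [Algebra K L] {r : ℕ} (t : Fin r → L)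
    (q : Fin r → K) : Prop :=
  ∀ g : MvPolynomial (Fin r) K, aeval t g = 0 → eval q g = 0

/-- Nullstellensatz: a polynomial that vanishes at all `K`-points of the closure of `t`
vanishes at `t`. -/
theorem aeval_eq_zero_of_points {r : ℕ} (t : Fin r → L) (f : MvPolynomial (Fin r) K)
    (h : ∀ q : Fin r → K, Pt K t q → eval q f = 0) : aeval t f = 0 := by
  have hp : (RingHom.ker (aeval t : MvPolynomial (Fin r) K →ₐ[K] L)).IsPrime :=
    RingHom.ker_isPrime _
  have h1 : f ∈ vanishingIdeal K
      (zeroLocus K (RingHom.ker (aeval t : MvPolynomial (Fin r) K →ₐ[K] L))) := by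
    intro q hq
    have h2 : Pt K t q := by
      intro g hg
      have := hq g ((RingHom.mem_ker).2 hg)
      rwa [aeval_eq_eval] at this
    rw [aeval_eq_eval]
    exact h q h2
  rw [IsPrime.vanishingIdeal_zeroLocus] at h1
  exact (RingHom.mem_ker).1 h1

/-- If the polynomials `φ_j` are linearly independent at `t` then some `K`-points of the
closure of `t` make the matrix `φ_j(q_i)` invertible. -/
theorem exists_points {r : ℕ} (t : Fin r → L) {n : Type} [Fintype n] [DecidableEq n]
    (φ : n → MvPolynomial (Fin r) K)
    (h : ∀ c : n → K, aeval t (∑ i, C (c i) * φ i) = 0 → c = 0) :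
    ∃ q : n → Fin r → K, (∀ i, Pt K t (q i)) ∧
      (Matrix.of fun i j => eval (q i) (φ j)).det ≠ 0 := by
  classical
  let S : Set (n → K) := {v | ∃ q : Fin r → K, Pt K t q ∧ v = fun j => eval q (φ j)}
  have hS : Submodule.span K S = ⊤ := by
    by_contra hne
    obtain ⟨f, hf, hle⟩ := Submodule.exists_le_ker_of_lt_top _ (lt_top_iff_ne_top.2 hne)
    have hfv : ∀ v : n → K, f v = ∑ i, f (Pi.single i 1) * v i := by
      intro v
      rw [LinearMap.pi_apply_eq_sum_univ f v]
      refine Finset.sum_congr rfl fun i _ => ?_
      have : (fun j => if i = j then (1 : K) else 0) = Pi.single i 1 := by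
        funext j
        by_cases hij : i = j
        · subst hij; simp
        · simp [hij, Ne.symm hij]
      rw [this, smul_eq_mul, mul_comm]
    have hc : (fun i => f (Pi.single i 1)) = (0 : n → K) := by
      refine h _ (aeval_eq_zero_of_points t _ fun q hq => ?_)
      have h1 : (fun j => eval q (φ j)) ∈ Submodule.span K S :=
        Submodule.subset_span ⟨q, hq, rfl⟩
      have h2 := LinearMap.mem_ker.1 (hle h1)
      rw [hfv] at h2
      simpa [map_sum, map_mul] using h2
    apply hf
    ext i
    simpa using congrFun hc i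
  obtain ⟨b, hbS, hbspan, hbli⟩ := exists_linearIndependent K S
  have hspan : ⊤ ≤ Submodule.span K (Set.range ((↑) : b → n → K)) := by
    rw [Subtype.range_coe, hbspan, hS]
  let B := Module.Basis.mk hbli hspan
  let e : n ≃ b := (Pi.basisFun K n).indexEquiv B
  choose q hq hv using fun i : n => hbS (e i).2
  refine ⟨q, hq, ?_⟩
  have hM : (Matrix.of fun i j => eval (q i) (φ j)) = Matrix.of fun i => ((e i : b) : n → K) := by
    ext i j
    simp only [Matrix.of_apply]
    rw [hv i]
  rw [hM]
  have hli : LinearIndependent K (Matrix.of fun i => ((e i : b) : n → K)).row := by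
    exact hbli.comp e e.injective
  rw [Matrix.linearIndependent_rows_iff_isUnit, Matrix.isUnit_iff_isUnit_det] at hli
  exact hli.ne_zero

end Pool.Agent.QT
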