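import Mathlib

/-! # Monomials of degree at most `d` and the count of zeros in a box -/

namespace Pool.Agent.QT

open MvPolynomial

/-- exponents of the monomials of degree at most `d` in `k` variables -/
def Mon (k d : ℕ) : Type := {e : Fin k → Fin (d + 1) // ∑ i, (e i : ℕ) ≤ d}

instance (k d : ℕ) : Fintype (Mon k d) := by unfold Mon; infer_instance
instance (k d : ℕ) : DecidableEq (Mon k d) := by unfold Mon; infer_instance

/-- the exponent vector -/
noncomputable def Mon.exp {k d : ℕ} (e : Mon k d) : Fin k →₀ ℕ :=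
  Finsupp.equivFunOnFinite.symm fun i => (e.1 i : ℕ)

private theorem card_exp_apply {k d : ℕ} (e : Mon k d) (i : Fin k) : e.exp i = (e.1 i : ℕ) := rfl

private theorem card_exists_exp {k d : ℕ} (m : Fin k →₀ ℕ) (hm : ∑ i, m i ≤ d) :
    ∃ e : Mon k d, e.exp = m := by
  have h1 : ∀ i, m i ≤ d := fun i =>
    (Finset.single_le_sum (f := fun i => m i) (fun _ _ => Nat.zero_le _) (Finset.mem_univ i)).trans hm
  refine ⟨⟨fun i => ⟨m i, Nat.lt_succ_of_le (h1 i)⟩, hm⟩, ?_⟩
  ext i
  rfl

theorem card_Mon (k d : ℕ) : Fintype.card (Mon k d) = (k + d).choose d := by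
  classical
  have h1 : (Finset.finsuppAntidiag (Finset.univ : Finset (Option (Fin k))) d).card =
      (k + d).choose d := by
    rw [Finset.card_finsuppAntidiag_nat_eq_choose, Finset.card_univ, Fintype.card_option,
      Fintype.card_fin]
    congr 1
    omega
  rw [← h1, ← Finset.card_univ]
  refine Finset.card_bij (fun e _ => Finsupp.optionElim (d - ∑ i, e.exp i) e.exp) ?_ ?_ ?_
  · intro e _
    have he : ∑ i, e.exp i ≤ d := e.2
    simp only [Finset.mem_finsuppAntidiag, Finset.subset_univ, and_true, Fintype.sum_option]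
    simp
    omega
  · intro a _ b _ hab
    apply Subtype.ext
    funext i
    apply Fin.ext
    have := DFunLike.congr_fun hab (some i)
    simpa [card_exp_apply] using this
  · intro α hα
    simp only [Finset.mem_finsuppAntidiag, Finset.subset_univ, and_true, Fintype.sum_option] at hα
    let m : Fin k →₀ ℕ := Finsupp.equivFunOnFinite.symm fun i => α (some i)
    have hm : ∀ i, m i = α (some i) := fun i => rfl
    obtain ⟨e, he⟩ := card_exists_exp (d := d) m (by simp only [hm]; omega)
    refine ⟨e, Finset.mem_univ _, ?_⟩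
    ext i
    rcases i with _ | i
    · simp only [he, hm]
      simp
      omega
    · simp [he, hm]

theorem Mon.exp_injective (k d : ℕ) : Function.Injective (Mon.exp (k := k) (d := d)) := by
  intro a b hab
  apply Subtype.ext
  funext i
  apply Fin.ext
  exact DFunLike.congr_fun hab i

theorem coeff_sum_Mon {K : Type} [Field K] {k d : ℕ} (c : Mon k d → K) (e : Mon k d) :
    (∑ e : Mon k d, monomial e.exp (c e)).coeff e.exp = c e := by
  classical
  rw [coeff_sum]
  simp only [coeff_monomial]
  rw [Finset.sum_eq_single e]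
  · simp
  · intro b _ hb
    rw [if_neg]
    exact fun h => hb (Mon.exp_injective k d h)
  · intro h
    exact absurd (Finset.mem_univ e) h

/-- the polynomials of degree at most `d` are the combinations of the monomials of `Mon k d` -/
theorem eq_sum_Mon {K : Type} [Field K] {k d : ℕ} (P : MvPolynomial (Fin k) K)
    (hP : P.totalDegree ≤ d) : P = ∑ e : Mon k d, monomial e.exp (P.coeff e.exp) := by
  classical
  refine MvPolynomial.ext _ _ fun m => ?_
  by_cases hm : ∑ i, m i ≤ d
  · obtain ⟨e, rfl⟩ := card_exists_exp m hm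
    rw [coeff_sum_Mon (fun e => P.coeff e.exp) e]
  · have h1 : P.coeff m = 0 := by
      by_contra h
      have h2 := le_totalDegree (mem_support_iff.2 h)
      rw [Finsupp.sum_fintype _ _ (fun _ => rfl)] at h2
      exact hm (h2.trans hP)
    rw [h1, coeff_sum]
    symm
    refine Finset.sum_eq_zero fun e _ => ?_
    rw [coeff_monomial, if_neg]
    rintro rfl
    exact hm e.2

theorem totalDegree_sum_Mon {K : Type} [Field K] {k d : ℕ} (c : Mon k d → K) :
    (∑ e : Mon k d, monomial e.exp (c e)).totalDegree ≤ d := by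
  refine (totalDegree_finsetSum _ _).trans (Finset.sup_le fun e _ => ?_)
  refine (totalDegree_monomial_le _ _).trans ?_
  rw [Finsupp.sum_fintype _ _ (fun _ => rfl)]
  exact e.2

private theorem card_aux (z t : ℚ≥0) (H n : ℕ) (hpos : (0 : ℚ≥0) < 2 * (H : ℚ≥0) + 1)
    (hz : z * (2 * (H : ℚ≥0) + 1) ≤ t * (2 * (H : ℚ≥0) + 1) ^ n) :
    z ≤ t * (2 * (H : ℚ≥0) + 1) ^ (n - 1) := by
  rcases Nat.eq_zero_or_pos n with h0 | h0
  · subst h0
    rw [pow_zero, mul_one] at hz
    have h1 : z ≤ z * (2 * (H : ℚ≥0) + 1) :=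
      le_mul_of_one_le_right (by positivity) (le_add_of_nonneg_left (by positivity))
    simpa using h1.trans hz
  · obtain ⟨n, rfl⟩ := Nat.exists_eq_succ_of_ne_zero h0.ne'
    simp only [Nat.succ_sub_one]
    rw [Nat.succ_eq_add_one, pow_succ, ← mul_assoc] at hz
    exact le_of_mul_le_mul_right hz hpos

/-- Schwartz–Zippel for integer matrices in a box -/
theorem count_box {s r : ℕ} (F : MvPolynomial (Fin s × Fin r) ℂ) (hF : F ≠ 0) (H : ℕ)
    (S : Set (Fin s → Fin r → ℤ))
    (hS : ∀ M ∈ S, (∀ i j, |M i j| ≤ (H : ℤ)) ∧ eval (fun p => (M p.1 p.2 : ℂ)) F = 0) :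
    ((S.ncard : ℕ) : ℝ) ≤ (F.totalDegree : ℝ) * (2 * H + 1) ^ (s * r - 1) := by
  classical
  let φ : Fin s × Fin r ≃ Fin (s * r) := finProdFinEquiv
  let p : MvPolynomial (Fin (s * r)) ℂ := rename φ F
  have hp : p ≠ 0 := fun h => hF (rename_injective φ φ.injective (by simpa [p] using h))
  have hdeg : p.totalDegree = F.totalDegree := totalDegree_renameEquiv φ F
  let B : Finset ℂ := (Finset.Icc (-(H : ℤ)) (H : ℤ)).image (fun z : ℤ => (z : ℂ))
  have hB : B.card = 2 * H + 1 := by
    rw [Finset.card_image_of_injective _ Int.cast_injective, Int.card_Icc]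
    omega
  have hz := schwartz_zippel_totalDegree hp B
  set Z := (Fintype.piFinset fun _ : Fin (s * r) => B).filter fun f => eval f p = 0 with hZ
  have hle : S.ncard ≤ Z.card := by
    rw [← Set.ncard_coe_finset Z]
    refine Set.ncard_le_ncard_of_injOn
      (fun M : Fin s → Fin r → ℤ => fun x => (M (φ.symm x).1 (φ.symm x).2 : ℂ)) ?_ ?_ Z.finite_toSet
    · intro M hM
      obtain ⟨h1, h2⟩ := hS M hM
      rw [Finset.mem_coe, hZ, Finset.mem_filter, Fintype.mem_piFinset]
      refine ⟨fun x => ?_, ?_⟩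
      · refine Finset.mem_image.2 ⟨M (φ.symm x).1 (φ.symm x).2, ?_, rfl⟩
        rw [Finset.mem_Icc]
        exact abs_le.1 (h1 _ _)
      · simp only [p]
        rw [eval_rename]
        convert h2 using 3
        funext q
        simp
    · intro M _ M' _ h
      funext i j
      have := congrFun h (φ (i, j))
      simpa using this
  have hQ : (Z.card : ℚ≥0) ≤ (F.totalDegree : ℚ≥0) * (2 * H + 1) ^ (s * r - 1) := by
    have hpos : (0 : ℚ≥0) < 2 * H + 1 := by positivity
    have hc : (B.card : ℚ≥0) = 2 * H + 1 := by rw [hB]; push_cast; ring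
    rw [hdeg, hc, div_le_div_iff₀ (by positivity) hpos] at hz
    exact card_aux _ _ _ _ hpos hz
  have hQ' : ((Z.card : ℚ≥0) : ℝ) ≤ (((F.totalDegree : ℚ≥0) * (2 * H + 1) ^ (s * r - 1) : ℚ≥0) : ℝ) := by
    exact_mod_cast hQ
  push_cast at hQ'
  refine le_trans ?_ hQ'
  exact_mod_cast hle

end Pool.Agent.QT
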