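import Pool.Agent.GenTuple.Final

/-! # The ultrapower of an algebraically closed field and the generic exceptional point -/

namespace Pool.Agent.QT

open MvPolynomial Pool.Agent.GenTuple

theorem UP_isAlgClosed {B : Type} (U : Ultrafilter B) (K : Type) [Field K] [IsAlgClosed K] :
    IsAlgClosed (UP U K) := by
  refine IsAlgClosed.of_exists_root _ fun p hp hirr => ?_
  have hn : p.natDegree ≠ 0 := hirr.natDegree_pos.ne'
  set n := p.natDegree with hn'
  choose f hf using fun i : ℕ => cl_surj U K (p.coeff i)
  have hroot : ∀ b : B, ∃ r : K, r ^ n + ∑ i ∈ Finset.range n, f i b * r ^ i = 0 := by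
    intro b
    have hdeg : (Polynomial.X ^ n + ∑ i : Fin n, Polynomial.C (f i b) *
        Polynomial.X ^ (i : ℕ) : Polynomial K).degree = n := by
      rw [Polynomial.degree_add_eq_left_of_degree_lt, Polynomial.degree_X_pow]
      rw [Polynomial.degree_X_pow]
      exact Polynomial.degree_sum_fin_lt fun i : Fin n => f i b
    obtain ⟨r, hr⟩ := IsAlgClosed.exists_root (Polynomial.X ^ n + ∑ i : Fin n,
      Polynomial.C (f i b) * Polynomial.X ^ (i : ℕ) : Polynomial K) (by
        rw [hdeg]
        exact_mod_cast hn)
    refine ⟨r, ?_⟩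
    rw [Polynomial.IsRoot.def, Polynomial.eval_add, Polynomial.eval_finsetSum] at hr
    simp only [Polynomial.eval_pow, Polynomial.eval_X, Polynomial.eval_mul,
      Polynomial.eval_C] at hr
    rw [Fin.sum_univ_eq_sum_range (fun i => f i b * r ^ i) n] at hr
    exact hr
  choose r hr using hroot
  refine ⟨cl U K r, ?_⟩
  rw [hp.as_sum, Polynomial.eval_add, Polynomial.eval_finsetSum]
  simp only [Polynomial.eval_pow, Polynomial.eval_X, Polynomial.eval_mul, Polynomial.eval_C]
  have h1 : (fun b => r b ^ n + ∑ i ∈ Finset.range n, f i b * r b ^ i) =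
      r ^ n + ∑ i ∈ Finset.range n, f i * r ^ i := by
    funext b
    rw [Pi.add_apply, Finset.sum_apply]
    rfl
  have h2 : cl U K (r ^ n + ∑ i ∈ Finset.range n, f i * r ^ i) = 0 := by
    rw [← h1, cl_eq_zero]
    exact Filter.Eventually.of_forall hr
  rw [map_add, map_sum, map_pow] at h2
  rw [← h2]
  congr 1
  refine Finset.sum_congr rfl fun i _ => ?_
  rw [map_mul, map_pow, hf]

/-- `GenTuple.ultra_bound` with the final bound replaced by the hypothesis `hbound` (which says:
every situation of this kind over an algebraically closed `E` satisfies `A.card < N`). -/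
theorem ultra_bound' {K F : Type} [Field K] [CharZero K] [IsAlgClosed K] [Field F] [Algebra K F]
    {X T J : Type} [Fintype X] [Fintype T] [Fintype J] [DecidableEq X] [DecidableEq T]
    [DecidableEq J] (x : X → F) (c : T → F) (t : T → J → F) (d : ℕ) (N : ℕ)
    (hbound : ∀ (E G : Type) [Field E] [Field G] [IsAlgClosed E] [Algebra K E] [Algebra K G]
      [Algebra E G] [Algebra F G] [IsScalarTower K E G] [IsScalarTower K F G] (_ : Disj K E F G)
      (lam : T × J → E) (A : Finset (T × J)) (_ : AlgebraicIndependent K (fun a : A => lam a))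
      (P : MvPolynomial (X ⊕ T) E) (_ : P ≠ 0) (_ : P.totalDegree ≤ d)
      (_ : aeval (pt (K := E) (fun a => algebraMap F G (x a)) (fun i => algebraMap F G (c i))
        (fun i j => algebraMap F G (t i j)) lam) P = 0), A.card < N)
    (B : Set (T × J → K))
    (hB : ∀ lam ∈ B, ∃ P : MvPolynomial (X ⊕ T) K, P ≠ 0 ∧ P.totalDegree ≤ d ∧
      aeval (pt x c t lam) P = 0)
    (A : Finset (T × J))
    (hA : ∀ f : MvPolynomial A K, f ≠ 0 → ∃ lam ∈ B, eval (fun a : A => lam a) f ≠ 0) :
    A.card < N := by
  classical
  -- the filter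
  let Fi : Filter B :=
    { sets := {S | ∃ f : MvPolynomial A K, f ≠ 0 ∧ {b : B | eval (fun a : A => b.1 a) f ≠ 0} ⊆ S}
      univ_sets := ⟨1, one_ne_zero, Set.subset_univ _⟩
      sets_of_superset := by
        rintro S S' ⟨f, hf, h1⟩ h2
        exact ⟨f, hf, h1.trans h2⟩
      inter_sets := by
        rintro S S' ⟨f, hf, h1⟩ ⟨g, hg, h2⟩
        refine ⟨f * g, mul_ne_zero hf hg, ?_⟩
        intro b hb
        have hb' : eval (fun a : A => b.1 a) (f * g) ≠ 0 := hb
        rw [map_mul] at hb'
        exact ⟨h1 (left_ne_zero_of_mul hb'), h2 (right_ne_zero_of_mul hb')⟩ }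
  have hNe : Fi.NeBot := by
    rw [Filter.neBot_iff]
    intro hbot
    have h1 : (∅ : Set B) ∈ Fi := by rw [hbot]; exact Filter.mem_bot
    obtain ⟨f, hf, h2⟩ := h1
    obtain ⟨lam, hlam, h3⟩ := hA f hf
    exact (h2 (show (⟨lam, hlam⟩ : B) ∈ {b : B | eval (fun a : A => b.1 a) f ≠ 0} from h3))
  let U : Ultrafilter B := Ultrafilter.of Fi
  have hU : (U : Filter B) ≤ Fi := Ultrafilter.of_le Fi
  have hUf : ∀ f : MvPolynomial A K, f ≠ 0 → ∀ᶠ b in (U : Filter B), eval (fun a : A => b.1 a) f ≠ 0 :=
    fun f hf => hU ⟨f, hf, subset_rfl⟩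
  let E := UP U K
  let G := UP U F
  let _ : Algebra E G := (UP.mapHom U K F).toAlgebra
  have hEG : ∀ f : B → K, algebraMap E G (cl U K f) = cl U F (fun b => algebraMap K F (f b)) :=
    fun _ => rfl
  have _ : IsScalarTower K E G := IsScalarTower.of_algebraMap_eq fun a => rfl
  have _ : IsScalarTower K F G := IsScalarTower.of_algebraMap_eq fun a => rfl
  -- disjointness
  have hdisj : Disj K E F G := by
    intro κ _ f hf
    rw [Fintype.linearIndependent_iff] at hf ⊢
    intro g hg
    choose g' hg' using fun i => cl_surj U K (g i)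
    have h1 : (∑ i, g i • algebraMap F G (f i)) =
        cl U F (fun b => ∑ i, algebraMap K F (g' i b) * f i) := by
      have h2 : (fun b => ∑ i, algebraMap K F (g' i b) * f i) =
          ∑ i, (fun b => algebraMap K F (g' i b)) * (fun _ => f i) := by
        funext b
        rw [Finset.sum_apply]
        rfl
      rw [h2, map_sum]
      refine Finset.sum_congr rfl fun i _ => ?_
      rw [Algebra.smul_def, map_mul, ← hg' i, hEG]
      rfl
    rw [h1, cl_eq_zero] at hg
    intro i
    rw [← hg' i, cl_eq_zero]
    filter_upwards [hg] with b hb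
    exact hf (fun i => g' i b) (by
      rw [← hb]
      exact Finset.sum_congr rfl fun i _ => by rw [Algebra.smul_def]) i
  -- the point
  let lamS : T × J → E := fun q => cl U K (fun b => b.1 q)
  have hAI : AlgebraicIndependent K (fun a : A => lamS a) := by
    rw [algebraicIndependent_iff]
    intro f hf
    by_contra hf0
    have h1 : aeval (fun a : A => lamS a) f = cl U K (fun b => eval (fun a : A => b.1 a) f) := by
      have h2 : (fun b : B => eval (fun a : A => b.1 a) f) =
          eval₂ (Pi.constRingHom B K) (fun a : A => fun b : B => b.1 a) f := by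
        funext b
        have h3 := congrArg (fun g => g f) (MvPolynomial.ringHom_ext
          (f := (Pi.evalRingHom (fun _ : B => K) b).comp
            (eval₂Hom (Pi.constRingHom B K) (fun a : A => fun b : B => b.1 a)))
          (g := eval (fun a : A => b.1 a)) (by intro r; simp) (by intro i; simp))
        exact h3.symm
      rw [h2, ← coe_eval₂Hom, ← RingHom.comp_apply]
      have h4 := congrArg (fun g => g f) (MvPolynomial.ringHom_ext
          (f := (cl U K).comp
            (eval₂Hom (Pi.constRingHom B K) (fun a : A => fun b : B => b.1 a)))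
          (g := (aeval (fun a : A => lamS a) : MvPolynomial A K →ₐ[K] E).toRingHom) (by
            intro r
            simp only [RingHom.comp_apply, coe_eval₂Hom, eval₂_C, AlgHom.toRingHom_eq_coe,
              RingHom.coe_coe, aeval_C]
            rfl) (by
            intro i
            simp only [RingHom.comp_apply, coe_eval₂Hom, eval₂_X, AlgHom.toRingHom_eq_coe,
              RingHom.coe_coe, aeval_X]
            rfl))
      exact h4.symm
    rw [h1, cl_eq_zero] at hf
    have h5 := (hf.and (hUf f hf0)).exists
    obtain ⟨b, h6, h7⟩ := h5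
    exact h7 h6
  -- the relation
  have hrel : ∃ P : MvPolynomial (X ⊕ T) E, P ≠ 0 ∧ P.totalDegree ≤ d ∧
      aeval (pt (K := E) (fun a => algebraMap F G (x a)) (fun i => algebraMap F G (c i))
        (fun i j => algebraMap F G (t i j)) lamS) P = 0 := by
    choose! P hP0 hPd hP using fun b : B => hB b.1 b.2
    let Q : MvPolynomial (X ⊕ T) E := ∑ α ∈ lowDeg (X ⊕ T) d,
      monomial α (cl U K (fun b => (P b).coeff α))
    have hQc : ∀ α ∈ lowDeg (X ⊕ T) d, Q.coeff α = cl U K (fun b => (P b).coeff α) := by
      intro α hα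
      simp only [Q]
      rw [coeff_sum, Finset.sum_eq_single α]
      · rw [coeff_monomial, if_pos rfl]
      · intro β _ hβ
        rw [coeff_monomial, if_neg hβ]
      · intro h3
        exact absurd hα h3
    have hQd : Q.totalDegree ≤ d := by
      refine (totalDegree_finsetSum _ _).trans (Finset.sup_le fun α hα => ?_)
      refine (totalDegree_monomial_le _ _).trans ?_
      rw [Finsupp.sum_fintype _ _ (fun _ => rfl)]
      exact mem_lowDeg.1 hα
    refine ⟨Q, ?_, hQd, ?_⟩
    · intro hQ
      have h1 : ∀ α ∈ lowDeg (X ⊕ T) d, ∀ᶠ b in (U : Filter B), (P b).coeff α = 0 := by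
        intro α hα
        rw [← cl_eq_zero U K (fun b => (P b).coeff α), ← hQc α hα, hQ, coeff_zero]
      have h2 := (Filter.eventually_all_finset (lowDeg (X ⊕ T) d)).2 h1
      obtain ⟨b, hb⟩ := h2.exists
      apply hP0 b
      ext α
      rw [coeff_zero]
      by_cases hα : α ∈ (P b).support
      · refine hb α ?_
        rw [mem_lowDeg]
        have h2 := le_totalDegree hα
        rw [Finsupp.sum_fintype _ _ (fun _ => rfl)] at h2
        exact h2.trans (hPd b)
      · exact notMem_support_iff.1 hα
    · have hy : pt (K := E) (fun a => algebraMap F G (x a)) (fun i => algebraMap F G (c i))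
        (fun i j => algebraMap F G (t i j)) lamS = fun l => cl U F (fun b => pt x c t b.1 l) := by
        funext l
        rcases l with a | i
        · rfl
        · simp only [pt, Sum.elim_inr]
          have h1 : (fun b : B => c i + ∑ j, algebraMap K F (b.1 (i, j)) * t i j) =
              (fun _ => c i) + ∑ j, (fun b : B => algebraMap K F (b.1 (i, j))) * (fun _ => t i j) := by
            funext b
            rw [Pi.add_apply, Finset.sum_apply]
            rfl
          rw [h1, map_add, map_sum]
          congr 1
      rw [aeval_eq_sum d _ Q hQd, hy]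
      have h1 : ∀ α ∈ lowDeg (X ⊕ T) d,
          Q.coeff α • mon (fun l => cl U F (fun b : B => pt x c t b.1 l)) α =
          cl U F (fun b => (P b).coeff α • mon (pt x c t b.1) α) := by
        intro α hα
        rw [mon_cl U (fun b : B => pt x c t b.1), hQc α hα, Algebra.smul_def, hEG, ← map_mul]
        congr 1
        funext b
        rw [Algebra.smul_def]
        rfl
      rw [Finset.sum_congr rfl h1, ← map_sum, cl_eq_zero]
      refine Filter.Eventually.of_forall fun b => ?_
      rw [Finset.sum_apply, ← aeval_eq_sum d _ (P b) (hPd b)]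
      exact hP b
  obtain ⟨P, hP0, hPd, hPe⟩ := hrel
  have hcl : IsAlgClosed E := UP_isAlgClosed U K
  exact hbound E G hdisj lamS A hAI P hP0 hPd hPe

end Pool.Agent.QT
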