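import Pool.Agent.QT.DimB
import Pool.Agent.QT.UltraK

/-! # Exceptional integer matrices are rare -/

namespace Pool.Agent.QT

open MvPolynomial Pool.Agent.GenTuple

/-- `P` has algebraic coefficients -/
def AlgCoef {σ : Type} (P : MvPolynomial σ ℂ) : Prop := ∀ e, IsAlgebraic ℚ (P.coeff e)

private theorem tup_lift {σ : Type} (P : MvPolynomial σ ℂ) (h : AlgCoef P) :
    ∃ Q : MvPolynomial σ (algebraicClosure ℚ ℂ),
      MvPolynomial.map (algebraMap (algebraicClosure ℚ ℂ) ℂ) Q = P := by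
  have : P ∈ Set.range (MvPolynomial.map (σ := σ) (algebraMap (algebraicClosure ℚ ℂ) ℂ)) := by
    rw [mem_range_map_iff_coeffs_subset]
    intro c hc
    obtain ⟨e, -, rfl⟩ := mem_coeffs_iff.1 (Finset.mem_coe.1 hc)
    exact ⟨⟨P.coeff e, mem_algebraicClosure_iff.2 (h e)⟩, rfl⟩
  exact this

private theorem tup_degree {σ : Type} (Q : MvPolynomial σ (algebraicClosure ℚ ℂ)) :
    (MvPolynomial.map (algebraMap (algebraicClosure ℚ ℂ) ℂ) Q).totalDegree = Q.totalDegree := by
  rw [totalDegree, totalDegree, support_map_of_injective Q (FaithfulSMul.algebraMap_injective _ _)]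

private theorem tup_coef {σ : Type} (Q : MvPolynomial σ (algebraicClosure ℚ ℂ)) :
    AlgCoef (MvPolynomial.map (algebraMap (algebraicClosure ℚ ℂ) ℂ) Q) := by
  intro e
  rw [coeff_map]
  exact mem_algebraicClosure_iff.1 (Q.coeff e).2

private theorem tup_eval {σ : Type} (Q : MvPolynomial σ (algebraicClosure ℚ ℂ)) (y : σ → ℂ) :
    eval y (MvPolynomial.map (algebraMap (algebraicClosure ℚ ℂ) ℂ) Q) = aeval y Q := by
  rw [eval_map, aeval_def]

/-- the exceptional integer points -/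
private def BadK (K : Type) {F : Type} [Field K] [Field F] [Algebra K F] {k s r : ℕ}
    (x : Fin k → F) (c : Fin s → F) (t : Fin s → Fin r → F) (d : ℕ) : Set (Fin s × Fin r → ℤ) :=
  {l | ∃ P : MvPolynomial (Fin k ⊕ Fin s) K, P ≠ 0 ∧ P.totalDegree ≤ d ∧
    aeval (pt x c t (fun q => ((l q : ℤ) : K))) P = 0}

private theorem tup_cov {K F : Type} [Field K] [CharZero K] [IsAlgClosed K] [Field F]
    [Algebra K F] {k s r d : ℕ} (hs : 0 < s) (hd : 0 < d) (x : Fin k → F) (c : Fin s → F)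
    (t : Fin s → Fin r → F) (hx : Good K d x)
    (ht : ∀ i (b : Fin r → K) (b0 : K),
      algebraMap K F b0 + ∑ j, algebraMap K F (b j) * t i j = 0 → b0 = 0 ∧ ∀ j, b j = 0)
    (A : Finset (Fin s × Fin r))
    (hA : A.card = (s - 1) * r + (k + (s - 1) + d).choose d) :
    Cov K (BadK K x c t d) A := by
  classical
  by_contra hcon
  have h1 := ultra_bound' (K := K) x c t d ((s - 1) * r + (k + (s - 1) + d).choose d)
    (fun E G _ _ _ _ _ _ _ _ _ hE lam A' hA' P hP0 hPd hP =>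
      dim_bound' hE hs hd x c t hx ht lam A' hA' P hP0 hPd hP)
    ((fun l : Fin s × Fin r → ℤ => fun q => ((l q : ℤ) : K)) '' (BadK K x c t d)) (by
      rintro _ ⟨l, hl, rfl⟩
      exact hl) A (by
      intro f hf
      by_contra hcon2
      push Not at hcon2
      apply hcon
      refine ⟨rename (fun a : A => (a : Fin s × Fin r)) f, ?_, ?_, ?_⟩
      · intro h
        exact hf (rename_injective _ Subtype.val_injective (by rw [h, map_zero]))
      · intro q hq
        have h2 := vars_rename (fun a : A => (a : Fin s × Fin r)) f hq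
        obtain ⟨a, _, rfl⟩ := Finset.mem_image.1 h2
        exact a.2
      · intro l hl
        have h3 : eval (fun a : A => ((l a : ℤ) : K)) f = 0 :=
          hcon2 (fun q => ((l q : ℤ) : K)) ⟨l, hl, rfl⟩
        rw [eval_rename]
        exact h3)
  omega

private theorem tup_count {K F : Type} [Field K] [CharZero K] [IsAlgClosed K] [Field F]
    [Algebra K F] {k s r d : ℕ} (hs : 0 < s) (hd : 0 < d) (x : Fin k → F) (c : Fin s → F)
    (t : Fin s → Fin r → F) (hx : Good K d x)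
    (ht : ∀ i (b : Fin r → K) (b0 : K),
      algebraMap K F b0 + ∑ j, algebraMap K F (b j) * t i j = 0 → b0 = 0 ∧ ∀ j, b j = 0) :
    ∃ C : ℕ, ∀ H : ℕ, cnt (BadK K x c t d) H ≤
      C * (2 * H + 1) ^ ((s - 1) * r + ((k + (s - 1) + d).choose d - 1)) := by
  classical
  have hN1 : 1 ≤ (k + (s - 1) + d).choose d := Nat.choose_pos (Nat.le_add_left _ _)
  obtain ⟨N', hN'⟩ : ∃ N', (k + (s - 1) + d).choose d = N' + 1 :=
    ⟨(k + (s - 1) + d).choose d - 1, by omega⟩
  obtain ⟨C, hC⟩ := cnt_le (K := K) ((s - 1) * r + (k + (s - 1) + d).choose d)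
    (BadK K x c t d) (fun A hA => tup_cov hs hd x c t hx ht A hA)
  refine ⟨C, fun H => ?_⟩
  have h1 := hC H
  rw [hN', ← add_assoc, pow_succ, ← mul_assoc] at h1
  rw [hN', Nat.add_sub_cancel]
  exact Nat.le_of_mul_le_mul_right h1 (by omega)

theorem tuples_count (k s r d : ℕ) (hs : 0 < s) (hd : 0 < d) (x : Fin k → ℂ)
    (hx : ∀ P : MvPolynomial (Fin k) ℂ, AlgCoef P → P.totalDegree ≤ d → eval x P = 0 → P = 0)
    (c : Fin s → ℂ) (t : Fin s → Fin r → ℂ)
    (ht : ∀ i (b : Fin r → ℂ) (b0 : ℂ), (∀ j, IsAlgebraic ℚ (b j)) → IsAlgebraic ℚ b0 →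
      b0 + ∑ j, b j * t i j = 0 → b0 = 0 ∧ ∀ j, b j = 0) :
    ∃ C : ℕ, ∀ H : ℕ, Set.ncard {M : Fin s → Fin r → ℤ | (∀ i j, |M i j| ≤ H) ∧
      ∃ P : MvPolynomial (Fin k ⊕ Fin s) ℂ, P ≠ 0 ∧ AlgCoef P ∧ P.totalDegree ≤ d ∧
        eval (Sum.elim x fun i => c i + ∑ j, (M i j : ℂ) * t i j) P = 0} ≤
      C * (2 * H + 1) ^ ((s - 1) * r + ((k + (s - 1) + d).choose d - 1)) := by
  classical
  have : IsAlgClosed (algebraicClosure ℚ ℂ) := (algebraicClosure.isAlgClosure ℚ ℂ).isAlgClosed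
  have hinj : Function.Injective (algebraMap (algebraicClosure ℚ ℂ) ℂ) :=
    FaithfulSMul.algebraMap_injective _ _
  have hx' : Good (algebraicClosure ℚ ℂ) d x := by
    intro P hPd hP
    have h1 := hx (MvPolynomial.map (algebraMap (algebraicClosure ℚ ℂ) ℂ) P) (tup_coef P)
      (by rw [tup_degree]; exact hPd) (by rw [tup_eval]; exact hP)
    exact MvPolynomial.map_injective _ hinj (by rw [h1, map_zero])
  have ht' : ∀ i (b : Fin r → algebraicClosure ℚ ℂ) (b0 : algebraicClosure ℚ ℂ),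
      algebraMap (algebraicClosure ℚ ℂ) ℂ b0 +
        ∑ j, algebraMap (algebraicClosure ℚ ℂ) ℂ (b j) * t i j = 0 →
        b0 = 0 ∧ ∀ j, b j = 0 := by
    intro i b b0 h
    obtain ⟨h1, h2⟩ := ht i (fun j => (b j : ℂ)) (b0 : ℂ)
      (fun j => mem_algebraicClosure_iff.1 (b j).2) (mem_algebraicClosure_iff.1 b0.2) h
    exact ⟨by exact_mod_cast h1, fun j => by exact_mod_cast h2 j⟩
  obtain ⟨C, hC⟩ := tup_count (K := algebraicClosure ℚ ℂ) hs hd x c t hx' ht'
  refine ⟨C, fun H => le_trans ?_ (hC H)⟩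
  unfold cnt
  rw [← Set.ncard_coe_finset]
  refine Set.ncard_le_ncard_of_injOn (fun M q => M q.1 q.2) ?_ ?_ (Finset.finite_toSet _)
  · rintro M ⟨hM, P, hP0, hPa, hPd, hP⟩
    obtain ⟨Q, rfl⟩ := tup_lift P hPa
    rw [Finset.mem_coe, Finset.mem_filter]
    refine ⟨?_, Q, ?_, ?_, ?_⟩
    · rw [box, Fintype.mem_piFinset]
      intro q
      rw [Finset.mem_Icc]
      exact abs_le.1 (hM _ _)
    · rintro rfl
      exact hP0 (map_zero _)
    · rwa [tup_degree] at hPd
    · rw [tup_eval] at hP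
      rw [← hP]
      congr 2
  · intro M _ M' _ hMM
    funext i j
    exact congrFun hMM (i, j)

end Pool.Agent.QT
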