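import Mathlib

/-! # Counting algebraically independent elements -/

namespace Pool.Agent.QT

theorem card_le_of_isAlgebraic {K E : Type} [Field K] [Field E] [Algebra K E] {α β : Type}
    [Fintype α] [Fintype β] (v : α → E) (hv : AlgebraicIndependent K v) (w : β → E)
    (h : ∀ a, IsAlgebraic (IntermediateField.adjoin K (Set.range w)) (v a)) :
    Fintype.card α ≤ Fintype.card β := by
  classical
  let M := AlgebraicIndependent.matroid K E
  have hI : M.Indep (Set.range v) := hv.to_subtype_range
  have hcl : Set.range v ⊆ M.closure (Set.range w) := by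
    rintro _ ⟨i, rfl⟩
    rw [AlgebraicIndependent.matroid_closure_eq]
    exact IntermediateField.isAlgebraic_adjoin_iff.1 (h i)
  have h1 : (Set.range v).encard = (Fintype.card α : ℕ∞) := by
    rw [← Set.image_univ, Set.InjOn.encard_image hv.injective.injOn, Set.encard_univ,
      ENat.card_eq_coe_fintype_card]
  have h2 : (Set.range w).encard ≤ (Fintype.card β : ℕ∞) := by
    rw [← Set.image_univ, ← ENat.card_eq_coe_fintype_card, ← Set.encard_univ]
    exact Set.encard_image_le w Set.univ
  have h3 : (Fintype.card α : ℕ∞) ≤ M.eRk (Set.range w) := by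
    rw [← h1, ← hI.eRk_eq_encard, ← M.eRk_closure_eq (Set.range w)]
    exact M.eRk_mono hcl
  have h4 : M.eRk (Set.range w) ≤ (Set.range w).encard := M.eRk_le_encard _
  exact_mod_cast h3.trans (h4.trans h2)

/-- the form used: `K1` is the algebraic closure in `E` of `K(w)`, and all `v a` are integral over
`K1[e]`. -/
theorem card_le {K E : Type} [Field K] [Field E] [Algebra K E] {α β γ : Type}
    [Fintype α] [Fintype β] [Fintype γ] (v : α → E) (hv : AlgebraicIndependent K v) (w : β → E)
    (e : γ → E)
    (h : ∀ a, IsIntegral (Algebra.adjoin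
      (algebraicClosure (IntermediateField.adjoin K (Set.range w)) E) (Set.range e)) (v a)) :
    Fintype.card α ≤ Fintype.card β + Fintype.card γ := by
  classical
  rw [← Fintype.card_sum]
  refine card_le_of_isAlgebraic v hv (Sum.elim w e) fun a => ?_
  set F0 := IntermediateField.adjoin K (Set.range (Sum.elim w e)) with hF0
  have hw : IntermediateField.adjoin K (Set.range w) ≤ F0 := by
    apply IntermediateField.adjoin.mono
    rintro _ ⟨i, rfl⟩
    exact ⟨Sum.inl i, rfl⟩
  have he : ∀ i, e i ∈ F0 := fun i => IntermediateField.subset_adjoin K _ ⟨Sum.inr i, rfl⟩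
  have hK1 : ∀ x : E, x ∈ algebraicClosure (IntermediateField.adjoin K (Set.range w)) E →
      x ∈ algebraicClosure F0 E := by
    intro x hx
    rw [mem_algebraicClosure_iff] at hx ⊢
    obtain ⟨p, hp0, hp⟩ := hx
    refine ⟨p.map (IntermediateField.inclusion hw).toRingHom, ?_, ?_⟩
    · exact (Polynomial.map_ne_zero_iff (IntermediateField.inclusion hw).toRingHom.injective).2 hp0
    · rw [← hp, Polynomial.aeval_def, Polynomial.aeval_def, Polynomial.eval₂_map]
      rfl
  set K1 := algebraicClosure (IntermediateField.adjoin K (Set.range w)) E with hK1d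
  have hS : ∀ x : E, x ∈ Algebra.adjoin K1 (Set.range e) → x ∈ algebraicClosure F0 E := by
    intro x hx
    induction hx using Algebra.adjoin_induction with
    | mem x hx =>
      obtain ⟨i, rfl⟩ := hx
      exact (algebraicClosure F0 E).algebraMap_mem ⟨e i, he i⟩
    | algebraMap r => exact hK1 _ r.2
    | add x y _ _ hx hy => exact add_mem hx hy
    | mul x y _ _ hx hy => exact mul_mem hx hy
  let φ : Algebra.adjoin K1 (Set.range e) →+* algebraicClosure F0 E :=
    { toFun := fun x => ⟨x.1, hS x.1 x.2⟩
      map_one' := rfl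
      map_mul' := fun _ _ => rfl
      map_zero' := rfl
      map_add' := fun _ _ => rfl }
  obtain ⟨p, hp, hp0⟩ := h a
  have h1 : IsAlgebraic (algebraicClosure F0 E) (v a) := by
    refine ⟨p.map φ, (hp.map φ).ne_zero, ?_⟩
    rw [Polynomial.aeval_def, Polynomial.eval₂_map, ← hp0]
    rfl
  exact h1.restrictScalars F0

end Pool.Agent.QT
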