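import Pool.Agent.QT.Fiber
import Pool.Agent.QT.Trd
import Pool.Agent.GenTuple.Dim

/-! # The dimension bound -/

namespace Pool.Agent.QT

open MvPolynomial Pool.Agent.GenTuple
open scoped TensorProduct

theorem exists_lin {K F K1 : Type} [Field K] [Field F] [Field K1] [Algebra K F] [Algebra K K1]
    {V : ℕ} (τ : Fin V → F) (q : Fin V → K1)
    (h : ∀ g : MvPolynomial (Fin V) K, aeval τ g = 0 → aeval q g = 0) :
    ∃ Ψ : F →ₗ[K] K1, ∀ g : MvPolynomial (Fin V) K, Ψ (aeval τ g) = aeval q g := by
  let T : MvPolynomial (Fin V) K →ₗ[K] F := (aeval τ).toLinearMap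
  let Q : MvPolynomial (Fin V) K →ₗ[K] K1 := (aeval q).toLinearMap
  obtain ⟨g, hg⟩ := T.rangeRestrict.exists_rightInverse_of_surjective T.range_rangeRestrict
  obtain ⟨Ψ, hΨ⟩ := (Q.comp g).exists_extend
  refine ⟨Ψ, fun p => ?_⟩
  have h1 : Ψ (T p) = Q (g (T.rangeRestrict p)) := LinearMap.congr_fun hΨ (T.rangeRestrict p)
  have h2 : T (g (T.rangeRestrict p)) = T p :=
    congrArg Subtype.val (LinearMap.congr_fun hg (T.rangeRestrict p))
  have h3 : aeval τ (g (T.rangeRestrict p) - p) = 0 := by
    rw [map_sub]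
    exact sub_eq_zero.2 h2
  have h4 := h _ h3
  rw [map_sub, sub_eq_zero] at h4
  exact h1.trans h4

/-- linear disjointness gives the hypothesis `hLD` of `fiber` for every intermediate field `K1` -/
theorem ld_of_disj {K E F G : Type} [Field K] [Field E] [Field F] [Field G] [Algebra K E]
    [Algebra K F] [Algebra K G] [Algebra E G] [Algebra F G] [IsScalarTower K E G]
    [IsScalarTower K F G] (h : Disj K E F G) {K1 : Type} [Field K1] [Algebra K K1] [Algebra K1 E]
    [Algebra K1 G] [IsScalarTower K K1 E] [IsScalarTower K1 E G] [IsScalarTower K K1 G]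
    {V : ℕ} (τ : Fin V → F)
    (f : MvPolynomial (Fin V) E) (hf : aeval (fun i => algebraMap F G (τ i)) f = 0)
    (q : Fin V → K1) (hq : Pt K1 (fun i => algebraMap F G (τ i)) q) :
    eval (fun i => algebraMap K1 E (q i)) f = 0 := by
  obtain ⟨Ψ, hΨ⟩ := exists_lin (K := K) τ q (fun g hg => by
    have h1 := hq (map (algebraMap K K1) g) (by
      rw [aeval_map_algebraMap]
      have : aeval (fun i => algebraMap F G (τ i)) g = algebraMap F G (aeval τ g) := by
        rw [← IsScalarTower.coe_toAlgHom' K F G, ← AlgHom.comp_apply, comp_aeval]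
      rw [this, hg, map_zero])
    rwa [eval_map, ← aeval_def] at h1)
  let Θ : E ⊗[K] F →ₗ[K] E :=
    (Algebra.TensorProduct.productMap (AlgHom.id K E)
      (IsScalarTower.toAlgHom K K1 E)).toLinearMap ∘ₗ LinearMap.lTensor E Ψ
  have hΘ : ∀ e y, Θ (e ⊗ₜ y) = e * algebraMap K1 E (Ψ y) := fun e y => by simp [Θ]
  have h1 : (∑ a ∈ f.support, f.coeff a ⊗ₜ[K] (∏ i, τ i ^ a i) : E ⊗[K] F) = 0 := by
    apply mu_injective h
    rw [map_zero, map_sum, ← hf, aeval_def, eval₂_eq']
    refine Finset.sum_congr rfl fun a _ => ?_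
    rw [mu_tmul, map_prod]
    simp only [map_pow]
  have h2 := congrArg Θ h1
  rw [map_zero, map_sum] at h2
  rw [eval_eq', ← h2]
  refine Finset.sum_congr rfl fun a _ => ?_
  rw [hΘ]
  have h3 : aeval τ (monomial a (1 : K)) = ∏ i, τ i ^ a i := by
    rw [aeval_monomial, map_one, one_mul, Finsupp.prod_fintype _ _ (fun _ => pow_zero _)]
  have h4 : aeval q (monomial a (1 : K)) = ∏ i, q i ^ a i := by
    rw [aeval_monomial, map_one, one_mul, Finsupp.prod_fintype _ _ (fun _ => pow_zero _)]
  rw [← h3, hΨ, h4, map_prod]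
  simp only [map_pow]

/-- adding the rows one by one in front -/
noncomputable def ys {G : Type} {k : ℕ} (x : Fin k → G) (row : ℕ → G) :
    (n : ℕ) → Fin (k + n) → G
  | 0 => x
  | n + 1 => Fin.cons (row n) (ys x row n)

theorem ys_succ {G : Type} {k : ℕ} (x : Fin k → G) (row : ℕ → G) (n : ℕ) :
    ys x row (n + 1) = (Fin.cons (row n) (ys x row n) : Fin (k + n + 1) → G) := rfl

theorem exists_idx (k : ℕ) : ∀ n : ℕ, ∃ φ : Fin k ⊕ Fin n → Fin (k + n), Function.Injective φ ∧
    ∀ (G : Type) (x : Fin k → G) (row : ℕ → G), (∀ a, ys x row n (φ (Sum.inl a)) = x a) ∧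
      ∀ i : Fin n, ys x row n (φ (Sum.inr i)) = row i := by
  intro n
  induction n with
  | zero =>
    refine ⟨Sum.elim id (fun i => i.elim0), ?_, fun G x row => ⟨fun a => rfl, fun i => i.elim0⟩⟩
    rintro (a | a) (b | b) h
    · exact congrArg Sum.inl h
    · exact b.elim0
    · exact a.elim0
    · exact a.elim0
  | succ n ih =>
    obtain ⟨φ, hφ, hy⟩ := ih
    let ψ : Fin k ⊕ Fin (n + 1) → Fin (k + n + 1) := fun u => match u with
      | Sum.inl a => (φ (Sum.inl a)).succ
      | Sum.inr i => if h : (i : ℕ) < n then (φ (Sum.inr ⟨i, h⟩)).succ else 0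
    refine ⟨ψ, ?_, fun G x row => ⟨fun a => ?_, fun i => ?_⟩⟩
    · rintro (a | a) (b | b) h
      · have := hφ (Fin.succ_injective _ h)
        exact congrArg Sum.inl (Sum.inl_injective this)
      · by_cases hb : (b : ℕ) < n
        · have h' : (φ (Sum.inl a)).succ = (φ (Sum.inr ⟨b, hb⟩)).succ := by
            have := h
            simp only [ψ, dif_pos hb] at this
            exact this
          have := hφ (Fin.succ_injective _ h')
          exact absurd this (by simp)
        · have h' : (φ (Sum.inl a)).succ = 0 := by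
            have := h
            simp only [ψ, dif_neg hb] at this
            exact this
          exact absurd h' (Fin.succ_ne_zero _)
      · by_cases hb : (a : ℕ) < n
        · have h' : (φ (Sum.inr ⟨a, hb⟩)).succ = (φ (Sum.inl b)).succ := by
            have := h
            simp only [ψ, dif_pos hb] at this
            exact this
          have := hφ (Fin.succ_injective _ h')
          exact absurd this (by simp)
        · have h' : (0 : Fin (k + n + 1)) = (φ (Sum.inl b)).succ := by
            have := h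
            simp only [ψ, dif_neg hb] at this
            exact this
          exact absurd h'.symm (Fin.succ_ne_zero _)
      · by_cases ha : (a : ℕ) < n
        · by_cases hb : (b : ℕ) < n
          · have h' : (φ (Sum.inr ⟨a, ha⟩)).succ = (φ (Sum.inr ⟨b, hb⟩)).succ := by
              have := h
              simp only [ψ, dif_pos ha, dif_pos hb] at this
              exact this
            have := hφ (Fin.succ_injective _ h')
            have h2 : (⟨a, ha⟩ : Fin n) = ⟨b, hb⟩ := Sum.inr_injective this
            have h3 : (a : ℕ) = b := Fin.mk.inj h2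
            exact congrArg Sum.inr (Fin.ext h3)
          · have h' : (φ (Sum.inr ⟨a, ha⟩)).succ = 0 := by
              have := h
              simp only [ψ, dif_pos ha, dif_neg hb] at this
              exact this
            exact absurd h' (Fin.succ_ne_zero _)
        · by_cases hb : (b : ℕ) < n
          · have h' : (0 : Fin (k + n + 1)) = (φ (Sum.inr ⟨b, hb⟩)).succ := by
              have := h
              simp only [ψ, dif_neg ha, dif_pos hb] at this
              exact this
            exact absurd h'.symm (Fin.succ_ne_zero _)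
          · exact congrArg Sum.inr (Fin.ext (by omega))
    · rw [ys_succ]
      change (Fin.cons (row n) (ys x row n) : Fin (k + n + 1) → G) (φ (Sum.inl a)).succ = x a
      rw [Fin.cons_succ]
      exact (hy G x row).1 a
    · rw [ys_succ]
      by_cases hi : (i : ℕ) < n
      · have e : ψ (Sum.inr i) = (φ (Sum.inr ⟨i, hi⟩)).succ := by simp only [ψ, dif_pos hi]
        rw [e, Fin.cons_succ]
        exact (hy G x row).2 ⟨i, hi⟩
      · have e : ψ (Sum.inr i) = 0 := by simp only [ψ, dif_neg hi]
        rw [e, Fin.cons_zero]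
        congr 1
        omega

/-- good over `K` and linear disjointness: good over `E` -/
theorem good_disj {K E F G : Type} [Field K] [Field E] [Field F] [Field G]
    [Algebra K F] [Algebra E G] [Algebra F G] (h : Disj K E F G)
    {k d : ℕ} (x : Fin k → F) (hx : Good K d x) : Good E d (fun a => algebraMap F G (x a)) := by
  unfold Good at hx ⊢
  rw [← linInd_iff] at hx ⊢
  have h1 := h _ _ hx
  have h2 : (fun α : lowDeg (Fin k) d => GenTuple.mon (fun a => algebraMap F G (x a)) α.1) =
      fun α : lowDeg (Fin k) d => algebraMap F G (GenTuple.mon x α.1) := by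
    funext α
    rw [GenTuple.mon, GenTuple.mon, Finsupp.prod, Finsupp.prod, map_prod]
    simp
  rw [h2]
  exact h1

/-- good over `E`: good over a subfield -/
theorem good_sub {K1 E G : Type} [Field K1] [Field E] [Field G] [Algebra K1 E] [Algebra E G]
    [Algebra K1 G] [IsScalarTower K1 E G] {k d : ℕ} (y : Fin k → G) (hy : Good E d y) :
    Good K1 d y := by
  intro P hP h
  have h1 := hy (map (algebraMap K1 E) P)
    ((Finset.sup_mono (support_map_subset _ _)).trans hP) (by rw [aeval_map_algebraMap, h])
  exact map_injective _ (algebraMap K1 E).injective (by rw [h1, map_zero])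

theorem good_inj {E G : Type} [Field E] [Field G] [Algebra E G] {σ : Type} {m d : ℕ}
    (y : Fin m → G) (hy : Good E d y) (φ : σ → Fin m) (hφ : Function.Injective φ)
    (P : MvPolynomial σ E) (hP : P.totalDegree ≤ d) (h : aeval (y ∘ φ) P = 0) : P = 0 := by
  have h1 := hy (rename φ P) ((totalDegree_rename_le φ P).trans hP) (by rw [aeval_rename, h])
  exact rename_injective φ hφ (by rw [h1, map_zero])

section

variable {K E F G : Type} [Field K] [Field E] [Field F] [Field G] [Algebra K E] [Algebra K F]
  [Algebra K G] [Algebra E G] [Algebra F G] [IsScalarTower K E G] [IsScalarTower K F G]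

/-- the rows -/
noncomputable def rowv {s r : ℕ} (c : Fin s → F) (t : Fin s → Fin r → F)
    (lam : Fin s × Fin r → E) (G : Type) [Field G] [Algebra E G] [Algebra F G] (n : ℕ) : G :=
  if h : n < s then algebraMap F G (c ⟨n, h⟩) +
    ∑ j, algebraMap E G (lam (⟨n, h⟩, j)) * algebraMap F G (t ⟨n, h⟩ j) else 0

theorem rowv_eq {s r : ℕ} (c : Fin s → F) (t : Fin s → Fin r → F)
    (lam : Fin s × Fin r → E) (i : Fin s) : rowv c t lam G i = algebraMap F G (c i) +
    ∑ j, algebraMap E G (lam (i, j)) * algebraMap F G (t i j) := by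
  rw [rowv, dif_pos i.2]

/-- the row after a good tuple -/
theorem row_int (h : Disj K E F G) {K1 : Type} [Field K1] [IsAlgClosed K1] [Algebra K K1]
    [Algebra K1 E] [Algebra K1 G] [IsScalarTower K K1 E] [IsScalarTower K1 E G]
    [IsScalarTower K K1 G] {k s r d : ℕ} (hd : 0 < d) (x : Fin k → F) (c : Fin s → F)
    (t : Fin s → Fin r → F)
    (ht : ∀ i (b : Fin r → K) (b0 : K),
      algebraMap K F b0 + ∑ j, algebraMap K F (b j) * t i j = 0 → b0 = 0 ∧ ∀ j, b j = 0)
    (lam : Fin s × Fin r → E) (i₀ : Fin s)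
    (hw : ∀ i j, i ≠ i₀ → ∃ z : K1, algebraMap K1 E z = lam (i, j))
    (hgood : Good E d (ys (fun a => algebraMap F G (x a)) (rowv c t lam G) i₀))
    (P : MvPolynomial (Fin (k + i₀ + 1)) E) (hP0 : P ≠ 0) (hPd : P.totalDegree ≤ d)
    (hP : aeval (ys (fun a => algebraMap F G (x a)) (rowv c t lam G) (i₀ + 1)) P = 0) :
    ∃ e : Fin ((k + i₀ + d).choose d - 1) → E, ∀ j,
      IsIntegral (Algebra.adjoin K1 (Set.range e)) (lam (i₀, j)) := by
  classical
  -- all parameters
  let I := (Fin k ⊕ Fin s) ⊕ (Fin s × Fin r)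
  let ε : I ≃ Fin (Fintype.card I) := Fintype.equivFin I
  let τF : Fin (Fintype.card I) → F := fun v =>
    Sum.elim (Sum.elim x c) (fun p => t p.1 p.2) (ε.symm v)
  let τ : Fin (Fintype.card I) → G := fun v => algebraMap F G (τF v)
  have hτx : ∀ a, τ (ε (Sum.inl (Sum.inl a))) = algebraMap F G (x a) := fun a => by
    simp [τ, τF]
  have hτc : ∀ i, τ (ε (Sum.inl (Sum.inr i))) = algebraMap F G (c i) := fun a => by
    simp [τ, τF]
  have hτt : ∀ i j, τ (ε (Sum.inr (i, j))) = algebraMap F G (t i j) := fun a b => by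
    simp [τ, τF]
  choose! z hz using hw
  -- the tuple as polynomials in the parameters
  let rowP : ℕ → MvPolynomial (Fin (Fintype.card I)) K1 := fun n =>
    if h : n < s then X (ε (Sum.inl (Sum.inr ⟨n, h⟩))) +
      ∑ j, C (z ⟨n, h⟩ j) * X (ε (Sum.inr (⟨n, h⟩, j))) else 0
  have hrowP : ∀ n : ℕ, n < (i₀ : ℕ) → aeval τ (rowP n) = rowv c t lam G n := by
    intro n hn
    have hns : n < s := hn.trans i₀.2
    have hne : (⟨n, hns⟩ : Fin s) ≠ i₀ := fun h => by
      have := congrArg Fin.val h
      simp only at this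
      omega
    simp only [rowP, rowv, dif_pos hns, map_add, map_sum, map_mul, aeval_X, aeval_C, hτc, hτt]
    congr 1
    refine Finset.sum_congr rfl fun j _ => ?_
    rw [← hz _ j hne, ← IsScalarTower.algebraMap_apply K1 E G]
  have hY : ∀ n : ℕ, n ≤ (i₀ : ℕ) → ∃ Y : Fin (k + n) → MvPolynomial (Fin (Fintype.card I)) K1,
      (fun l => aeval τ (Y l)) = ys (fun a => algebraMap F G (x a)) (rowv c t lam G) n := by
    intro n
    induction n with
    | zero => exact fun _ => ⟨fun a => X (ε (Sum.inl (Sum.inl a))), by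
        funext a
        rw [aeval_X, hτx]
        rfl⟩
    | succ n ih =>
      intro hn
      obtain ⟨Y, hY⟩ := ih (by omega)
      refine ⟨(Fin.cons (rowP n) Y : Fin (k + n + 1) → _), ?_⟩
      rw [ys_succ]
      funext l
      refine Fin.cases ?_ (fun l => ?_) l
      · rw [Fin.cons_zero, Fin.cons_zero]
        exact hrowP n (by omega)
      · rw [Fin.cons_succ, Fin.cons_succ, ← hY]
  obtain ⟨Y, hY⟩ := hY i₀ le_rfl
  refine fiber (G := G) (K := K1) τ ?_ hd Y ?_ (ε (Sum.inl (Sum.inr i₀)))
    (fun j => ε (Sum.inr (i₀, j))) ?_ (fun j => lam (i₀, j)) P hP0 hPd ?_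
  · intro f hf q hq
    exact ld_of_disj h τF f hf q hq
  · rw [hY]
    exact good_sub _ hgood
  · intro b b0 hb
    simp only [hτt] at hb
    have h1 : LinearIndependent K (fun o : Option (Fin r) => o.elim (1 : F) (t i₀)) := by
      rw [Fintype.linearIndependent_iff]
      intro g hg
      rw [Fintype.sum_option] at hg
      obtain ⟨k1, k2⟩ := ht i₀ (fun j => g (some j)) (g none) (by
        rw [← hg]
        simp [Algebra.smul_def])
      rintro (_ | j)
      · exact k1
      · exact k2 j
    have h2 := h _ _ h1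
    rw [Fintype.linearIndependent_iff] at h2
    have h3 := h2 (fun o => o.elim (algebraMap K1 E b0) fun j => algebraMap K1 E (b j)) (by
      rw [Fintype.sum_option, ← hb]
      simp only [Option.elim_none, Option.elim_some, Algebra.smul_def, map_one, mul_one,
        ← IsScalarTower.algebraMap_apply K1 E G])
    refine ⟨?_, fun j => ?_⟩
    · exact (map_eq_zero (algebraMap K1 E)).1 (h3 none)
    · exact (map_eq_zero (algebraMap K1 E)).1 (h3 (some j))
  · rw [hY, hτc]
    simp only [hτt]
    rw [← rowv_eq c t lam i₀]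
    exact hP

end

theorem dim_bound' {K E F G : Type} [Field K] [Field E] [Field F] [Field G] [IsAlgClosed K]
    [IsAlgClosed E] [Algebra K E] [Algebra K F] [Algebra K G] [Algebra E G] [Algebra F G]
    [IsScalarTower K E G] [IsScalarTower K F G] (h : Disj K E F G) {k s r d : ℕ} (hs : 0 < s)
    (hd : 0 < d) (x : Fin k → F) (c : Fin s → F) (t : Fin s → Fin r → F) (hx : Good K d x)
    (ht : ∀ i (b : Fin r → K) (b0 : K),
      algebraMap K F b0 + ∑ j, algebraMap K F (b j) * t i j = 0 → b0 = 0 ∧ ∀ j, b j = 0)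
    (lam : Fin s × Fin r → E) (A : Finset (Fin s × Fin r))
    (hA : AlgebraicIndependent K (fun a : A => lam a))
    (P : MvPolynomial (Fin k ⊕ Fin s) E) (hP0 : P ≠ 0) (hPd : P.totalDegree ≤ d)
    (hP : aeval (pt (K := E) (fun a => algebraMap F G (x a)) (fun i => algebraMap F G (c i))
      (fun i j => algebraMap F G (t i j)) lam) P = 0) :
    A.card < (s - 1) * r + (k + (s - 1) + d).choose d := by
  classical
  set yn : (n : ℕ) → Fin (k + n) → G := ys (fun a => algebraMap F G (x a)) (rowv c t lam G)
    with hyn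
  have hg0 : Good E d (yn 0) := good_disj h x hx
  have hgs : ¬ Good E d (yn s) := by
    intro hg
    obtain ⟨φ, hφ, hy⟩ := exists_idx k s
    obtain ⟨hy1, hy2⟩ := hy G (fun a => algebraMap F G (x a)) (rowv c t lam G)
    refine hP0 (good_inj (yn s) hg φ hφ P hPd ?_)
    rw [← hP]
    congr 2
    funext u
    rcases u with a | i
    · exact hy1 a
    · rw [Function.comp_apply, hyn, hy2 i, rowv_eq]
      rfl
  obtain ⟨n, hn, hgn, hgn'⟩ : ∃ n, n < s ∧ Good E d (yn n) ∧ ¬ Good E d (yn (n + 1)) := by
    by_contra hcon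
    push Not at hcon
    have : ∀ n, n ≤ s → Good E d (yn n) := by
      intro n
      induction n with
      | zero => exact fun _ => hg0
      | succ n ih => exact fun hn => hcon n (by omega) (ih (by omega))
    exact hgs (this s le_rfl)
  unfold Good at hgn'
  push Not at hgn'
  obtain ⟨P', hP'd, hP', hP'0⟩ := hgn'
  let i₀ : Fin s := ⟨n, hn⟩
  let w : {p : Fin s × Fin r // p.1 ≠ i₀} → E := fun p => lam p.1
  let K0 := IntermediateField.adjoin K (Set.range w)
  have hcl : IsAlgClosed (algebraicClosure K0 E) := (algebraicClosure.isAlgClosure K0 E).isAlgClosed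
  have hmem : ∀ p : Fin s × Fin r, p.1 ≠ i₀ →
      ∃ z : algebraicClosure K0 E, algebraMap (algebraicClosure K0 E) E z = lam p := by
    intro p hp
    have h1 : lam p ∈ K0 := IntermediateField.subset_adjoin K _ ⟨⟨p, hp⟩, rfl⟩
    exact ⟨algebraMap K0 (algebraicClosure K0 E) ⟨lam p, h1⟩, rfl⟩
  have hst : IsScalarTower K (algebraicClosure K0 E) E :=
    IsScalarTower.of_algebraMap_eq fun z => rfl
  have hst2 : IsScalarTower K (algebraicClosure K0 E) G :=
    IsScalarTower.of_algebraMap_eq fun z => by
      rw [IsScalarTower.algebraMap_apply K E G]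
      rfl
  obtain ⟨e, he⟩ := row_int (K1 := algebraicClosure K0 E) h hd x c t ht lam i₀
    (fun i j hi => hmem (i, j) hi) hgn P' hP'0 hP'd hP'
  have hcard := card_le (fun a : A => lam a) hA w e (by
    rintro ⟨⟨i, j⟩, ha⟩
    by_cases hi : i = i₀
    · subst hi
      exact he j
    · obtain ⟨z, hz⟩ := hmem (i, j) hi
      change IsIntegral (Algebra.adjoin (algebraicClosure K0 E) (Set.range e)) (lam (i, j))
      rw [← hz]
      exact isIntegral_algebraMap (R := Algebra.adjoin (algebraicClosure K0 E) (Set.range e))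
        (x := algebraMap _ _ z))
  have hcardq : Fintype.card {q : Fin s × Fin r // q.1 ≠ i₀} = (s - 1) * r := by
    have e1 : {q : Fin s × Fin r // q.1 ≠ i₀} ≃ {i' : Fin s // i' ≠ i₀} × Fin r :=
      { toFun := fun q => (⟨q.1.1, q.2⟩, q.1.2)
        invFun := fun q => ⟨(q.1.1, q.2), q.1.2⟩
        left_inv := fun q => rfl
        right_inv := fun q => rfl }
    rw [Fintype.card_congr e1, Fintype.card_prod, Fintype.card_subtype_compl]
    simp
  rw [hcardq, Fintype.card_coe, Fintype.card_fin] at hcard
  have h1 : 0 < (k + n + d).choose d := Nat.choose_pos (by omega)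
  have h2 : (k + n + d).choose d ≤ (k + (s - 1) + d).choose d :=
    Nat.choose_le_choose d (by omega)
  change A.card ≤ (s - 1) * r + ((k + n + d).choose d - 1) at hcard
  omega

end Pool.Agent.QT
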