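import Pool.Agent.QT.Main

/-! # Small generic matrices for complex numbers with `1, t_j` linearly independent over the
algebraic numbers -/

namespace Pool.Agent.QT

open MvPolynomial

/-- The polynomial `P` has algebraic coefficients, degree at most `d`, is nonzero and vanishes at
`y`. -/
def Rel {s : ℕ} (d : ℕ) (y : Fin s → ℂ) : Prop :=
  ∃ P : MvPolynomial (Fin s) ℂ, P ≠ 0 ∧ P.totalDegree ≤ d ∧ (∀ e, IsAlgebraic ℚ (P.coeff e)) ∧
    eval y P = 0

theorem exists_lift {s : ℕ} (P : MvPolynomial (Fin s) ℂ) (h : ∀ e, IsAlgebraic ℚ (P.coeff e)) :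
    ∃ Q : MvPolynomial (Fin s) (algebraicClosure ℚ ℂ),
      MvPolynomial.map (algebraMap (algebraicClosure ℚ ℂ) ℂ) Q = P := by
  have : P ∈ Set.range (MvPolynomial.map (σ := Fin s) (algebraMap (algebraicClosure ℚ ℂ) ℂ)) := by
    rw [mem_range_map_iff_coeffs_subset]
    intro c hc
    obtain ⟨e, -, rfl⟩ := mem_coeffs_iff.1 (Finset.mem_coe.1 hc)
    exact ⟨⟨P.coeff e, mem_algebraicClosure_iff.2 (h e)⟩, rfl⟩
  exact this

theorem totalDegree_map_inj {s : ℕ} (Q : MvPolynomial (Fin s) (algebraicClosure ℚ ℂ)) :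
    (MvPolynomial.map (algebraMap (algebraicClosure ℚ ℂ) ℂ) Q).totalDegree = Q.totalDegree := by
  rw [totalDegree, totalDegree, support_map_of_injective Q (FaithfulSMul.algebraMap_injective _ _)]

theorem tuples_poly (s d r : ℕ) (hr : (s - 1 + d).choose d ≤ r) (t : Fin r → ℂ)
    (hB : ∀ (b : Fin r → ℂ) (b0 : ℂ), (∀ i, IsAlgebraic ℚ (b i)) → IsAlgebraic ℚ b0 →
      b0 + ∑ i, b i * t i = 0 → b0 = 0 ∧ ∀ i, b i = 0) :
    ∃ F : MvPolynomial (Fin s × Fin r) ℂ, F ≠ 0 ∧ (∀ e, IsAlgebraic ℚ (F.coeff e)) ∧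
      ∀ M : Fin s → Fin r → ℂ, (∀ i j, IsAlgebraic ℚ (M i j)) →
        Rel d (fun i => ∑ j, M i j * t j) → eval (fun p => M p.1 p.2) F = 0 := by
  have hinj : Function.Injective (algebraMap (algebraicClosure ℚ ℂ) ℂ) :=
    FaithfulSMul.algebraMap_injective _ _
  have : IsAlgClosed (algebraicClosure ℚ ℂ) := (algebraicClosure.isAlgClosure ℚ ℂ).isAlgClosed
  obtain ⟨F, hF, hbad⟩ := exists_poly (K := algebraicClosure ℚ ℂ) (s := s) (d := d) t
    (fun b b0 h => by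
      obtain ⟨h1, h2⟩ := hB (fun i => (b i : ℂ)) (b0 : ℂ)
        (fun i => mem_algebraicClosure_iff.1 (b i).2) (mem_algebraicClosure_iff.1 b0.2) h
      exact ⟨by exact_mod_cast h1, fun i => by exact_mod_cast h2 i⟩) hr
  refine ⟨MvPolynomial.map (algebraMap _ ℂ) F, ?_, fun e => ?_, fun M hM hrel => ?_⟩
  · intro h0
    exact hF (MvPolynomial.map_injective _ hinj (by rw [h0, map_zero]))
  · rw [coeff_map]
    exact mem_algebraicClosure_iff.1 (F.coeff e).2
  · obtain ⟨P, hP0, hPd, hPa, hP⟩ := hrel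
    obtain ⟨Q, hQ⟩ := exists_lift P hPa
    let M' : Fin s → Fin r → algebraicClosure ℚ ℂ :=
      fun i j => ⟨M i j, mem_algebraicClosure_iff.2 (hM i j)⟩
    have h1 : ¬ Good (algebraicClosure ℚ ℂ) d (app M' t) := by
      intro hg
      have h2 : Q = 0 := by
        refine hg Q ?_ ?_
        · refine le_trans (le_of_eq ?_) hPd
          rw [← hQ]
          exact (totalDegree_map_inj Q).symm
        · rw [← hP, ← hQ, eval_map, aeval_def]
          rfl
      rw [h2, map_zero] at hQ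
      exact hP0 hQ.symm
    have h3 := hbad M' h1
    have h4 := congrArg (algebraMap (algebraicClosure ℚ ℂ) ℂ) h3
    rw [map_zero] at h4
    rw [← h4, eval_map, ← MvPolynomial.coe_eval₂Hom, eval, map_eval₂Hom]
    rfl

theorem tuples (s d r : ℕ) (hr : (s - 1 + d).choose d ≤ r) (t : Fin r → ℂ)
    (hB : ∀ (b : Fin r → ℂ) (b0 : ℂ), (∀ i, IsAlgebraic ℚ (b i)) → IsAlgebraic ℚ b0 →
      b0 + ∑ i, b i * t i = 0 → b0 = 0 ∧ ∀ i, b i = 0) :
    ∃ C : ℝ, ∀ H : ℕ, (({M : Fin s → Fin r → ℤ | (∀ i j, |M i j| ≤ (H : ℤ)) ∧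
      Rel d (fun i => ∑ j, (M i j : ℂ) * t j)}.ncard : ℕ) : ℝ) ≤ C * (2 * H + 1) ^ (s * r - 1) := by
  obtain ⟨F, hF, -, hbad⟩ := tuples_poly s d r hr t hB
  refine ⟨F.totalDegree, fun H => count_box F hF H _ fun M hM => ⟨hM.1, ?_⟩⟩
  exact hbad (fun i j => (M i j : ℂ)) (fun i j => isAlgebraic_intCast (M i j)) hM.2

end Pool.Agent.QT
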