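import Mathlib

/-! # Cones and integrality -/

namespace Pool.Agent.QT

open MvPolynomial in
theorem noether_coeff {K E : Type} [Field K] [Field E] [Algebra K E] {σ : Type}
    (μ : σ → E) (f : MvPolynomial σ K) (k : ℕ) :
    (aeval (fun i => Polynomial.C (μ i) * Polynomial.X) f : Polynomial E).coeff k =
      aeval μ (homogeneousComponent k f) := by
  induction f using MvPolynomial.monomial_add_induction_on with
  | C a =>
    have h1 : (C a : MvPolynomial σ K) ∈ homogeneousSubmodule σ K 0 := isHomogeneous_C σ a
    rw [homogeneousComponent_of_mem h1]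
    by_cases hk : k = 0
    · subst hk; simp
    · simp [hk, Polynomial.coeff_C]
  | monomial_add e c f _ _ ih =>
    have h1 : (monomial e c : MvPolynomial σ K) ∈ homogeneousSubmodule σ K e.degree :=
      isHomogeneous_monomial c rfl
    have h2 : (e.prod fun i n => (Polynomial.C (μ i) * Polynomial.X) ^ n : Polynomial E) =
        Polynomial.C (e.prod fun i n => μ i ^ n) * Polynomial.X ^ e.degree := by
      simp only [mul_pow, Finsupp.prod_mul]
      congr 1
      · simp [Finsupp.prod, map_prod]
      · rw [Finsupp.prod, Finset.prod_pow_eq_pow_sum, Finsupp.degree_apply]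
    rw [map_add, map_add, map_add, Polynomial.coeff_add, ih, homogeneousComponent_of_mem h1,
      aeval_monomial, h2]
    congr 1
    by_cases hk : k = e.degree
    · subst hk
      simp [aeval_monomial]
    · have hk' : e.degree ≠ k := fun h => hk h.symm
      simp [hk, Polynomial.coeff_X_pow]

open MvPolynomial in
/-- If only `0` is a common zero over `K` of the homogeneous equations of the point `μ` and of the
linear forms `l a`, then the coordinates of `μ` are integral over the ring generated by the
values `l a (μ)`. (`aeval (C (μ i) * X) f = 0` says that all homogeneous parts of `f` vanish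
at `μ`.) -/
theorem noether {K E : Type} [Field K] [IsAlgClosed K] [Field E] [Algebra K E] {σ : Type}
    [Fintype σ] [DecidableEq σ] (μ : σ → E) {c : Type} [Fintype c] (l : c → σ → K)
    (h : ∀ m0 : σ → K,
      (∀ f : MvPolynomial σ K, MvPolynomial.aeval
        (fun i => Polynomial.C (μ i) * Polynomial.X) f = (0 : Polynomial E) →
          MvPolynomial.eval m0 f = 0) →
      (∀ a, ∑ j, l a j * m0 j = 0) → m0 = 0) (j : σ) :
    IsIntegral (Algebra.adjoin K (Set.range fun a => ∑ j, algebraMap K E (l a j) * μ j)) (μ j) := by
  classical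
  let φ : MvPolynomial σ K →ₐ[K] Polynomial E :=
    aeval (fun i => Polynomial.C (μ i) * Polynomial.X)
  let L : c → MvPolynomial σ K := fun a => ∑ j, C (l a j) * X j
  let lv : c → E := fun a => ∑ j, algebraMap K E (l a j) * μ j
  let I : Ideal (MvPolynomial σ K) := RingHom.ker φ ⊔ Ideal.span (Set.range L)
  have hφL : ∀ a, φ (L a) = Polynomial.C (lv a) * Polynomial.X := by
    intro a
    simp only [φ, L, lv, map_sum, map_mul, aeval_C, aeval_X, Finset.sum_mul]
    refine Finset.sum_congr rfl fun i _ => ?_
    rw [Polynomial.algebraMap_apply, mul_assoc]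
  have hrad : ∀ i : σ, (X i : MvPolynomial σ K) ∈ I.radical := by
    intro i
    rw [← vanishingIdeal_zeroLocus_eq_radical (K := K)]
    intro m0 hm0
    have h0 : m0 = 0 := by
      refine h m0 (fun f hf => ?_) fun a => ?_
      · have := hm0 f (Ideal.mem_sup_left ((RingHom.mem_ker).2 hf))
        rwa [aeval_eq_eval] at this
      · have := hm0 (L a) (Ideal.mem_sup_right (Ideal.subset_span ⟨a, rfl⟩))
        simpa [L] using this
    simp [h0]
  choose nn hnn using hrad
  let n : ℕ := ∑ i, nn i + 1
  have hn : ∀ i : σ, (X i : MvPolynomial σ K) ^ n ∈ I := by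
    intro i
    have h1 : nn i ≤ n := by
      have := Finset.single_le_sum (f := nn) (fun j _ => Nat.zero_le _) (Finset.mem_univ i)
      omega
    obtain ⟨q, hq⟩ := Nat.exists_eq_add_of_le h1
    rw [hq, pow_add]
    exact I.mul_mem_right _ (hnn i)
  have hex : ∀ i : σ, ∃ hh : c → MvPolynomial σ K, μ i ^ n =
      ∑ a, lv a * aeval μ (homogeneousComponent (n - 1) (hh a)) := by
    intro i
    obtain ⟨g, hg, f, hf, hgf⟩ := Submodule.mem_sup.1 (hn i)
    obtain ⟨hh, hhh⟩ := (Ideal.mem_span_range_iff_exists_fun).1 hf
    refine ⟨hh, ?_⟩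
    have h1 : φ (X i ^ n) = ∑ a, φ (hh a) * (Polynomial.C (lv a) * Polynomial.X) := by
      rw [← hgf, map_add, (RingHom.mem_ker).1 hg, zero_add, ← hhh, map_sum]
      exact Finset.sum_congr rfl fun a _ => by rw [map_mul, hφL]
    have h2 := congrArg (fun p : Polynomial E => p.coeff n) h1
    have h3 : φ (X i ^ n) = Polynomial.C (μ i ^ n) * Polynomial.X ^ n := by
      simp [φ, mul_pow]
    simp only [h3, Polynomial.finsetSum_coeff, Polynomial.coeff_C_mul, Polynomial.coeff_X_pow,
      if_true, mul_one] at h2
    rw [h2]
    refine Finset.sum_congr rfl fun a _ => ?_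
    rw [← noether_coeff, ← mul_assoc]
    have h4 : n = (n - 1) + 1 := rfl
    rw [h4, Polynomial.coeff_mul_X, Polynomial.coeff_mul_C, mul_comm]
    rfl
  let R := Algebra.adjoin K (Set.range lv)
  let S : Set E := (fun e : σ → Fin n => ∏ i, μ i ^ (e i : ℕ)) '' Set.univ
  let W : Submodule R E := Submodule.span R S
  have hlv : ∀ a, lv a ∈ R := fun a => Algebra.subset_adjoin ⟨a, rfl⟩
  have hK : ∀ (a : K) (w : E), w ∈ W → algebraMap K E a * w ∈ W := by
    intro a w hw
    have := W.smul_mem (⟨algebraMap K E a, R.algebraMap_mem a⟩ : R) hw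
    simpa [Algebra.smul_def] using this
  have hR : ∀ (a : c) (w : E), w ∈ W → lv a * w ∈ W := by
    intro a w hw
    have := W.smul_mem (⟨lv a, hlv a⟩ : R) hw
    simpa [Algebra.smul_def] using this
  have key : ∀ k : ℕ, ∀ f : MvPolynomial σ K, f.IsHomogeneous k → aeval μ f ∈ W := by
    intro k
    induction k using Nat.strong_induction_on with
    | _ k ih =>
      have hmon : ∀ e : σ →₀ ℕ, e.degree = k → aeval μ (monomial e (1 : K)) ∈ W := by
        intro e he
        by_cases hlt : ∀ i, e i < n
        · refine Submodule.subset_span ⟨fun i => ⟨e i, hlt i⟩, trivial, ?_⟩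
          simp only [aeval_monomial, map_one, one_mul]
          rw [Finsupp.prod_fintype _ _ fun i => by simp]
        · push Not at hlt
          obtain ⟨i, hi⟩ := hlt
          have he2 : e = Finsupp.single i n + (e - Finsupp.single i n) := by
            refine (add_tsub_cancel_of_le ?_).symm
            rw [Finsupp.single_le_iff]
            exact hi
          set e' := e - Finsupp.single i n with he'
          have hdeg : n + e'.degree = k := by
            rw [← he, he2, map_add, Finsupp.degree_single]
          have h5 : (monomial e (1 : K) : MvPolynomial σ K) = X i ^ n * monomial e' 1 := by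
            rw [he2, X_pow_eq_monomial, monomial_mul, one_mul]
          obtain ⟨hh, hhh⟩ := hex i
          rw [h5, map_mul, map_pow, aeval_X, hhh, Finset.sum_mul]
          refine W.sum_mem fun a _ => ?_
          rw [mul_assoc, ← map_mul]
          refine hR a _ (ih (n - 1 + e'.degree) (by omega) _ ?_)
          exact (homogeneousComponent_isHomogeneous _ _).mul (isHomogeneous_monomial 1 rfl)
      intro f hf
      rw [f.as_sum, map_sum]
      refine W.sum_mem fun e he => ?_
      have h6 : (monomial e (coeff e f) : MvPolynomial σ K) = C (coeff e f) * monomial e 1 := by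
        rw [C_mul_monomial, mul_one]
      rw [h6, map_mul, aeval_C]
      refine hK _ _ (hmon e ?_)
      have := hf (mem_support_iff.1 he)
      rw [← this]
      exact (Finsupp.degree_eq_weight_one (R := ℕ) ▸ rfl)
  have hall : ∀ f : MvPolynomial σ K, aeval μ f ∈ W := by
    intro f
    rw [← sum_homogeneousComponent f, map_sum]
    exact W.sum_mem fun i _ => key i _ (homogeneousComponent_isHomogeneous _ _)
  have h1W : (1 : E) ∈ W := by simpa using hall 1
  have hmul : ∀ w ∈ W, μ j • w ∈ W := by
    intro w hw
    refine Submodule.span_induction (p := fun w _ => μ j • w ∈ W) ?_ ?_ ?_ ?_ hw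
    · rintro _ ⟨e, -, rfl⟩
      have := hall (X j * ∏ i, X i ^ (e i : ℕ))
      simpa using this
    · simp
    · intro x y _ _ hx hy
      rw [smul_add]
      exact W.add_mem hx hy
    · intro a x _ hx
      rw [smul_comm]
      exact W.smul_mem a hx
  have hfin : S.Finite := Set.toFinite _
  exact isIntegral_of_smul_mem_submodule W (fun hbot => by
    rw [hbot] at h1W
    exact one_ne_zero ((Submodule.mem_bot _).1 h1W)) (Submodule.fg_span hfin) (μ j) hmul

end Pool.Agent.QT
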