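import Pool.Agent.QT.Main
import Pool.Agent.QT.Noether

/-! # The fibre over a good tuple -/

namespace Pool.Agent.QT

open MvPolynomial

section
variable {K L : Type} [Field K] [Field L] [Algebra K L]

theorem aeval_aevalY {V k : ℕ} (τ : Fin V → L) (Y : Fin k → MvPolynomial (Fin V) K)
    (P : MvPolynomial (Fin k) K) :
    aeval τ (aeval Y P) = aeval (fun l => aeval τ (Y l)) P := by
  have h : (aeval τ).comp (aeval Y) =
      (aeval (fun l => aeval τ (Y l)) : MvPolynomial (Fin k) K →ₐ[K] L) := by
    ext j
    simp
  exact DFunLike.congr_fun h P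

theorem eval_aevalY {V k : ℕ} (q : Fin V → K) (Y : Fin k → MvPolynomial (Fin V) K)
    (P : MvPolynomial (Fin k) K) :
    eval q (aeval Y P) = eval (fun l => eval q (Y l)) P :=
  aeval_aevalY (L := K) q Y P

/-- the matrix of the monomials at points -/
noncomputable def matY {V k d : ℕ} (Y : Fin k → MvPolynomial (Fin V) K)
    (q : Mon k d → Fin V → K) : Matrix (Mon k d) (Mon k d) K :=
  Matrix.of fun i e => eval (q i) (aeval Y (monomial e.exp (1 : K)))

theorem matY_mulVec {V k d : ℕ} (Y : Fin k → MvPolynomial (Fin V) K)
    (q : Mon k d → Fin V → K) (P : MvPolynomial (Fin k) K) (hP : P.totalDegree ≤ d)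
    (i : Mon k d) :
    (matY Y q).mulVec (fun e => P.coeff e.exp) i = eval (q i) (aeval Y P) := by
  conv_rhs => rw [eq_sum_Mon P hP]
  rw [map_sum, map_sum]
  simp only [matY, Matrix.mulVec, dotProduct, Matrix.of_apply]
  refine Finset.sum_congr rfl fun e _ => ?_
  have : monomial e.exp (P.coeff e.exp) = C (P.coeff e.exp) * monomial e.exp (1 : K) := by
    rw [C_mul_monomial, mul_one]
  rw [this, map_mul, map_mul, ← algebraMap_eq, AlgHom.commutes, algebraMap_eq, eval_C, mul_comm]

theorem eq_zero_of_detY {V k d : ℕ} (Y : Fin k → MvPolynomial (Fin V) K)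
    (q : Mon k d → Fin V → K) (hdet : (matY Y q).det ≠ 0) (P : MvPolynomial (Fin k) K)
    (hP : P.totalDegree ≤ d) (h : ∀ i, eval (q i) (aeval Y P) = 0) : P = 0 := by
  have h0 : (matY Y q).mulVec (fun e => P.coeff e.exp) = 0 := by
    funext i
    rw [matY_mulVec Y q P hP i, h i]
    rfl
  have h1 : (fun e : Mon k d => P.coeff e.exp) = 0 := by
    by_contra hne
    exact hdet (Matrix.exists_mulVec_eq_zero_iff.1 ⟨_, hne, h0⟩)
  rw [eq_sum_Mon P hP]
  refine Finset.sum_eq_zero fun e _ => ?_
  have := congrFun h1 e
  simp only [Pi.zero_apply] at this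
  rw [this, monomial_zero]

theorem exists_detY [IsAlgClosed K] {V k d : ℕ} (τ : Fin V → L)
    (Y : Fin k → MvPolynomial (Fin V) K) (hY : Good K d (fun l => aeval τ (Y l))) :
    ∃ q : Mon k d → Fin V → K, (∀ i, Pt K τ (q i)) ∧ (matY Y q).det ≠ 0 := by
  classical
  refine exists_points τ (fun e : Mon k d => aeval Y (monomial e.exp (1 : K))) fun c hc => ?_
  have h1 : (∑ e : Mon k d, C (c e) * aeval Y (monomial e.exp (1 : K)))
      = aeval Y (∑ e : Mon k d, monomial e.exp (c e)) := by
    rw [map_sum]
    refine Finset.sum_congr rfl fun e _ => ?_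
    have : monomial e.exp (c e) = C (c e) * monomial e.exp (1 : K) := by
      rw [C_mul_monomial, mul_one]
    rw [this, map_mul]
    congr 1
    exact ((aeval Y).commutes (c e)).symm
  rw [h1, aeval_aevalY] at hc
  have h2 := hY _ (totalDegree_sum_Mon c) hc
  funext e
  rw [← coeff_sum_Mon c e, h2, coeff_zero]
  rfl

/-- the core argument -/
theorem core {V k d : ℕ} (τ : Fin V → L) (Y : Fin k → MvPolynomial (Fin V) K)
    (q : Mon k d → Fin V → K) (hq : ∀ i, Pt K τ (q i)) (hdet : (matY Y q).det ≠ 0)
    (Z : MvPolynomial (Fin V) K) (b0 : K) (b : Fin k → K)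
    (h : ∀ i, eval (q i) Z = b0 + ∑ j, b j * eval (q i) (Y j))
    (hne : aeval τ Z - (algebraMap K L b0 + ∑ j, algebraMap K L (b j) * aeval τ (Y j)) ≠ 0) :
    Good K d (fun l => aeval τ ((Fin.cons Z Y : Fin (k + 1) → MvPolynomial (Fin V) K) l)) := by
  set Y' : Fin (k + 1) → MvPolynomial (Fin V) K := Fin.cons Z Y with hY'
  have key : ∀ n : ℕ, ∀ P : MvPolynomial (Fin (k + 1)) K, P.totalDegree ≤ n → n ≤ d →
      aeval (fun l => aeval τ (Y' l)) P = 0 → P = 0 := by
    intro n
    induction n with
    | zero =>
      intro P hP _ h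
      have h0 : P.totalDegree = 0 := by omega
      rw [totalDegree_eq_zero_iff_eq_C] at h0
      rw [h0, aeval_C] at h
      have h2 : coeff 0 P = 0 := (FaithfulSMul.algebraMap_injective K L) (by rw [h, map_zero])
      rw [h0, h2, C_0]
    | succ n ih =>
      intro P hP hn hP0
      by_contra hPne
      have h1 : subst (aff b0 b) P = 0 := by
        refine eq_zero_of_detY Y q hdet _
          ((totalDegree_subst _ (totalDegree_aff b0 b) P).trans (hP.trans hn)) fun i => ?_
        have h2 : eval (q i) (aeval Y' P) = 0 := by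
          refine hq i _ ?_
          rw [aeval_aevalY, hP0]
        rw [eval_aevalY] at h2 ⊢
        have h3 : eval (fun l => eval (q i) (Y l)) (subst (aff b0 b) P)
            = eval (fun l => eval (q i) (Y' l)) P := by
          have h4 : (aeval (fun l => eval (q i) (Y l))).comp (subst (aff b0 b))
              = (aeval (fun l => eval (q i) (Y' l)) :
                  MvPolynomial (Fin (k + 1)) K →ₐ[K] K) := by
            ext j
            refine Fin.cases ?_ (fun j => ?_) j
            · simp [subst, hY', aff, h i]
            · simp [subst, hY']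
          exact DFunLike.congr_fun h4 P
        rw [h3, h2]
      obtain ⟨P1, hP1⟩ := dvd_of_subst_eq_zero _ P h1
      have hX := totalDegree_X_sub (aff b0 b)
      have hP1ne : P1 ≠ 0 := by
        rintro rfl
        exact hPne (by rw [hP1, mul_zero])
      have hXne : (X 0 - rename Fin.succ (aff b0 b) : MvPolynomial (Fin (k + 1)) K) ≠ 0 := by
        intro h0
        rw [h0] at hX
        simp at hX
      have hdeg := totalDegree_mul_of_isDomain hXne hP1ne
      rw [← hP1] at hdeg
      refine hP1ne (ih P1 (by omega) (by omega) ?_)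
      rw [hP1, map_mul, mul_eq_zero] at hP0
      refine hP0.resolve_left fun h5 => hne ?_
      rw [← h5]
      simp [aff, hY']
  intro P hP h
  exact key d P hP le_rfl h

/-- the linear forms -/
theorem exists_xi {V k r d : ℕ} (hd : 0 < d) (τ : Fin V → L)
    (Y : Fin k → MvPolynomial (Fin V) K) (q : Mon k d → Fin V → K)
    (hdet : (matY Y q).det ≠ 0) (T : Fin r → Fin V)
    (ht : ∀ (b : Fin r → K) (b0 : K),
      algebraMap K L b0 + ∑ j, algebraMap K L (b j) * τ (T j) = 0 → b0 = 0 ∧ ∀ j, b j = 0) :
    ∃ Ξ : (Fin r → K) →ₗ[K] (Fin ((k + d).choose d - 1) → K), ∀ m0, Ξ m0 = 0 →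
      (∃ (b0 : K) (b : Fin k → K), ∀ i, ∑ j, m0 j * q i (T j) =
        b0 + ∑ l, b l * eval (q i) (Y l)) ∧
      ((∃ (b0 : K) (b : Fin k → K), ∑ j, algebraMap K L (m0 j) * τ (T j) =
        algebraMap K L b0 + ∑ l, algebraMap K L (b l) * aeval τ (Y l)) → m0 = 0) := by
  classical
  let ev : (K × (Fin k → K)) →ₗ[K] (Mon k d → K) :=
    { toFun := fun v i => v.1 + ∑ l, v.2 l * eval (q i) (Y l)
      map_add' := by
        intro x y
        funext i
        simp only [Prod.fst_add, Prod.snd_add, Pi.add_apply, add_mul, Finset.sum_add_distrib]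
        ring
      map_smul' := by
        intro c x
        funext i
        simp only [Prod.smul_fst, Prod.smul_snd, Pi.smul_apply, smul_eq_mul, RingHom.id_apply,
          mul_assoc, ← Finset.mul_sum]
        ring }
  have hev : LinearMap.ker ev = ⊥ := by
    rw [LinearMap.ker_eq_bot']
    rintro ⟨b0, b⟩ hb
    have h1 : aff b0 b = 0 := by
      refine eq_zero_of_detY Y q hdet _ ((totalDegree_aff b0 b).trans hd) fun i => ?_
      rw [eval_aevalY]
      have := congrFun hb i
      simp only [ev, LinearMap.coe_mk, AddHom.coe_mk, Pi.zero_apply] at this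
      simp only [aff, map_add, eval_C, map_sum, map_mul, eval_X]
      exact this
    have h2 : b0 = 0 := by
      have := congrArg (eval (0 : Fin k → K)) h1
      simpa [aff] using this
    have h3 : b = 0 := by
      funext l
      have := congrArg (eval (Pi.single l (1 : K))) h1
      simp only [aff, eval_C, map_sum, map_mul, eval_X, map_zero, h2, zero_add] at this
      rw [Finset.sum_eq_single l] at this
      · simpa using this
      · intro j _ hj
        rw [Pi.single_eq_of_ne hj, mul_zero]
      · intro h
        exact absurd (Finset.mem_univ l) h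
    rw [h2, h3]
    rfl
  let Ψ : (Fin r → K) →ₗ[K] (Mon k d → K) :=
    { toFun := fun m0 i => ∑ j, m0 j * q i (T j)
      map_add' := by
        intro x y
        funext i
        simp only [Pi.add_apply, add_mul, Finset.sum_add_distrib]
      map_smul' := by
        intro c x
        funext i
        simp only [Pi.smul_apply, smul_eq_mul, RingHom.id_apply, mul_assoc, ← Finset.mul_sum] }
  let E : ((Fin r → K) × (K × (Fin k → K))) →ₗ[K] L :=
    { toFun := fun v => (∑ j, algebraMap K L (v.1 j) * τ (T j)) -
        (algebraMap K L v.2.1 + ∑ l, algebraMap K L (v.2.2 l) * aeval τ (Y l))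
      map_add' := by
        intro x y
        simp only [Prod.fst_add, Prod.snd_add, Pi.add_apply, add_mul, map_add,
          Finset.sum_add_distrib]
        ring
      map_smul' := by
        intro c x
        change (∑ j, algebraMap K L (c * x.1 j) * τ (T j)) -
          (algebraMap K L (c * x.2.1) + ∑ l, algebraMap K L (c * x.2.2 l) * aeval τ (Y l)) =
          c • ((∑ j, algebraMap K L (x.1 j) * τ (T j)) -
          (algebraMap K L x.2.1 + ∑ l, algebraMap K L (x.2.2 l) * aeval τ (Y l)))
        rw [Algebra.smul_def]
        simp only [map_mul, mul_assoc, ← Finset.mul_sum]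
        ring }
  let U : Submodule K (Fin r → K) := (LinearMap.ker E).map (LinearMap.fst K _ _)
  have hU : Module.finrank K U ≤ k := by
    have h1 : Module.finrank K U ≤ Module.finrank K (LinearMap.ker E) :=
      Submodule.finrank_map_le _ _
    have h2 : Module.finrank K (LinearMap.ker E) ≤ k := by
      let p : LinearMap.ker E →ₗ[K] (Fin k → K) :=
        (LinearMap.snd K K (Fin k → K)) ∘ₗ (LinearMap.snd K (Fin r → K) (K × (Fin k → K))) ∘ₗ
          (LinearMap.ker E).subtype
      have hp : Function.Injective p := by
        rw [← LinearMap.ker_eq_bot, LinearMap.ker_eq_bot']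
        rintro ⟨⟨m, b0, b⟩, hv⟩ hb
        have hb' : b = 0 := hb
        subst hb'
        have hv' : (∑ j, algebraMap K L (m j) * τ (T j)) -
            (algebraMap K L b0 + ∑ l, algebraMap K L ((0 : Fin k → K) l) * aeval τ (Y l)) = 0 :=
          LinearMap.mem_ker.1 hv
        simp only [Pi.zero_apply, map_zero, zero_mul, Finset.sum_const_zero, add_zero] at hv'
        obtain ⟨h3, h4⟩ := ht m (-b0) (by rw [map_neg, ← hv']; ring)
        have h5 : m = 0 := funext h4
        have h6 : b0 = 0 := neg_eq_zero.1 h3
        subst h5 h6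
        rfl
      have := LinearMap.finrank_le_finrank_of_injective hp
      simpa using this
    exact h1.trans h2
  obtain ⟨ρ, hρ⟩ : ∃ ρ : U →ₗ[K] (Fin k → K), Function.Injective ρ := by
    rw [← finrank_le_iff_exists_linearMap]
    simpa using hU
  obtain ⟨R, hR⟩ := LinearMap.exists_extend ρ
  let A := LinearMap.range ev
  have hA : Module.finrank K A = 1 + k := by
    rw [LinearMap.finrank_range_of_inj (LinearMap.ker_eq_bot.1 hev)]
    simp
  have hQ : Module.finrank K (((Mon k d → K) ⧸ A) × (Fin k → K)) =
      Module.finrank K (Fin ((k + d).choose d - 1) → K) := by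
    have h1 := Submodule.finrank_quotient_add_finrank A
    rw [hA, Module.finrank_fintype_fun_eq_card, card_Mon] at h1
    rw [Module.finrank_prod]
    simp only [Module.finrank_fin_fun]
    omega
  let e := LinearEquiv.ofFinrankEq _ _ hQ
  refine ⟨e.toLinearMap ∘ₗ ((A.mkQ ∘ₗ Ψ).prod R), fun m0 hm0 => ?_⟩
  have h1 : ((A.mkQ ∘ₗ Ψ).prod R) m0 = 0 := e.map_eq_zero_iff.1 hm0
  have h2 : Ψ m0 ∈ A := by
    have := congrArg Prod.fst h1
    simpa using this
  have h3 : R m0 = 0 := congrArg Prod.snd h1
  refine ⟨?_, fun ⟨b0, b, hb⟩ => ?_⟩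
  · obtain ⟨⟨b0, b⟩, hb⟩ := h2
    refine ⟨b0, b, fun i => ?_⟩
    have := congrFun hb i
    simp only [ev, Ψ, LinearMap.coe_mk, AddHom.coe_mk] at this
    exact this.symm
  · have hmem : m0 ∈ U := by
      refine ⟨(m0, (b0, b)), ?_, rfl⟩
      change (∑ j, algebraMap K L (m0 j) * τ (T j)) -
        (algebraMap K L b0 + ∑ l, algebraMap K L (b l) * aeval τ (Y l)) = 0
      rw [hb, sub_self]
    have h4 : ρ ⟨m0, hmem⟩ = 0 := by
      rw [← hR]
      exact h3
    have h5 := hρ (h4.trans (map_zero ρ).symm)
    exact congrArg Subtype.val h5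

end

theorem isIntegral_mono {K E : Type} [Field K] [Field E] [Algebra K E] {A B : Subalgebra K E}
    (h : A ≤ B) {x : E} (hx : IsIntegral A x) : IsIntegral B x := by
  obtain ⟨p, hp, hx⟩ := hx
  refine ⟨p.map (Subalgebra.inclusion h).toRingHom, hp.map _, ?_⟩
  rw [Polynomial.eval₂_map]
  exact hx

/-- Let `y` be good over `K`, `1, t_j` linearly independent over `K`, `m` with entries in `E` and
`c + ∑ m_j t_j, y` bad over `E`. Then `m` is integral over `K[e]` with `binom(k+d, d) - 1`
elements `e`. -/
theorem fiber {K E G : Type} [Field K] [IsAlgClosed K] [Field E] [Field G] [Algebra K E]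
    [Algebra E G] [Algebra K G] [IsScalarTower K E G] {V : ℕ} (τ : Fin V → G)
    (hLD : ∀ f : MvPolynomial (Fin V) E, aeval τ f = 0 → ∀ q : Fin V → K, Pt K τ q →
      eval (fun i => algebraMap K E (q i)) f = 0)
    {k r d : ℕ} (hd : 0 < d) (Y : Fin k → MvPolynomial (Fin V) K)
    (hY : Good K d (fun l => aeval τ (Y l))) (c : Fin V) (T : Fin r → Fin V)
    (ht : ∀ (b : Fin r → K) (b0 : K),
      algebraMap K G b0 + ∑ j, algebraMap K G (b j) * τ (T j) = 0 → b0 = 0 ∧ ∀ j, b j = 0)
    (m : Fin r → E) (P : MvPolynomial (Fin (k + 1)) E) (hP0 : P ≠ 0) (hPd : P.totalDegree ≤ d)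
    (hP : aeval (Fin.cons (τ c + ∑ j, algebraMap E G (m j) * τ (T j))
      (fun l => aeval τ (Y l)) : Fin (k + 1) → G) P = 0) :
    ∃ e : Fin ((k + d).choose d - 1) → E, ∀ j,
      IsIntegral (Algebra.adjoin K (Set.range e)) (m j) := by
  classical
  obtain ⟨q, hq, hdet⟩ := exists_detY τ Y hY
  obtain ⟨Ξ, hΞ⟩ := exists_xi hd τ Y q hdet T ht
  let l : Option (Fin ((k + d).choose d - 1)) → Option (Fin r) → K := fun a j =>
    a.elim (j.elim 1 fun _ => 0) fun a => j.elim 0 fun j => Ξ (Pi.single j 1) a
  let μ : Option (Fin r) → E := fun j => j.elim 1 m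
  let e : Fin ((k + d).choose d - 1) → E := fun a => ∑ j, algebraMap K E (Ξ (Pi.single j 1) a) * m j
  have hlin : ∀ (m1 : Fin r → K) a, Ξ m1 a = ∑ j, Ξ (Pi.single j 1) a * m1 j := by
    intro m1 a
    have h1 : m1 = ∑ j, m1 j • (Pi.single j (1 : K) : Fin r → K) := by
      funext j'
      rw [Finset.sum_apply, Finset.sum_eq_single j']
      · simp
      · intro j _ hj
        rw [Pi.smul_apply, Pi.single_eq_of_ne (Ne.symm hj), smul_zero]
      · intro h
        exact absurd (Finset.mem_univ _) h
    conv_lhs => rw [h1]
    rw [map_sum, Finset.sum_apply]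
    refine Finset.sum_congr rfl fun j _ => ?_
    rw [map_smul, Pi.smul_apply, smul_eq_mul, mul_comm]
  have hY' : ∀ (Z : MvPolynomial (Fin V) K), (fun l => aeval τ
      ((Fin.cons Z Y : Fin (k + 1) → MvPolynomial (Fin V) K) l)) =
      (Fin.cons (aeval τ Z) (fun l => aeval τ (Y l)) : Fin (k + 1) → G) := by
    intro Z
    funext l
    refine Fin.cases ?_ (fun j => ?_) l <;> simp
  have hmain : ∀ j, IsIntegral (Algebra.adjoin K
      (Set.range fun a => ∑ j, algebraMap K E (l a j) * μ j)) (μ j) := by
    intro j
    refine noether μ l (fun m0 h1 h2 => ?_) j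
    have h00 : m0 none = 0 := by
      have := h2 none
      simpa [l, Fintype.sum_option] using this
    set m1 : Fin r → K := fun j => m0 (some j) with hm1
    have hΞ0 : Ξ m1 = 0 := by
      funext a
      have := h2 (some a)
      rw [Fintype.sum_option] at this
      rw [hlin, Pi.zero_apply, ← this]
      simp [l, hm1]
    obtain ⟨⟨b0, b, haff⟩, hU⟩ := hΞ m1 hΞ0
    suffices h3 : m1 = 0 by
      funext j
      rcases j with - | j
      · exact h00
      · exact congrFun h3 j
    refine hU ⟨b0, b, ?_⟩
    by_contra hne
    set Z : MvPolynomial (Fin V) K := ∑ j, C (m1 j) * X (T j) with hZ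
    have hZτ : aeval τ Z = ∑ j, algebraMap K G (m1 j) * τ (T j) := by
      simp [hZ]
    have hgood := core τ Y q hq hdet Z b0 b (fun i => by
      rw [← haff i]
      simp [hZ]) (by
      rw [hZτ]
      exact sub_ne_zero.2 hne)
    obtain ⟨q', hq', hdet'⟩ := exists_detY τ (Fin.cons Z Y) hgood
    -- the determinant as a polynomial
    let row : Mon (k + 1) d → Fin (k + 1) → MvPolynomial (Option (Fin r)) K := fun i =>
      Fin.cons (X none * C (q' i c) + ∑ j, X (some j) * C (q' i (T j)))
        (fun l => C (eval (q' i) (Y l)))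
    let A : Matrix (Mon (k + 1) d) (Mon (k + 1) d) (MvPolynomial (Option (Fin r)) K) :=
      Matrix.of fun i e' => aeval (row i) (monomial e'.exp (1 : K))
    have hA0 : eval m0 A.det = (matY (Fin.cons Z Y : Fin (k + 1) → MvPolynomial (Fin V) K) q').det := by
      rw [RingHom.map_det]
      congr 1
      ext i e'
      simp only [RingHom.mapMatrix_apply, Matrix.map_apply, A, Matrix.of_apply, matY]
      rw [eval_aevalY]
      have h4 : (aeval m0).comp (aeval (row i)) = (aeval (fun l => eval (q' i)
          ((Fin.cons Z Y : Fin (k + 1) → MvPolynomial (Fin V) K) l)) :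
            MvPolynomial (Fin (k + 1)) K →ₐ[K] K) := by
        ext j
        refine Fin.cases ?_ (fun j => ?_) j
        · simp [row, h00, hZ, hm1]
        · simp [row]
      exact DFunLike.congr_fun h4 _
    have hAμ : aeval (fun i => Polynomial.C (μ i) * Polynomial.X) A.det = (0 : Polynomial E) := by
      let φ : MvPolynomial (Option (Fin r)) K →ₐ[K] Polynomial E :=
        aeval (fun i => Polynomial.C (μ i) * Polynomial.X)
      change φ A.det = 0
      have hdetφ : φ A.det = (A.map φ).det := by
        have := RingHom.map_det (φ : MvPolynomial (Option (Fin r)) K →+* Polynomial E) A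
        exact this
      rw [hdetφ]
      rw [← Matrix.exists_mulVec_eq_zero_iff]
      -- the kernel vector
      refine ⟨fun e' => Polynomial.C (P.coeff e'.exp) * Polynomial.X ^ (d - (e'.exp 0)), ?_, ?_⟩
      · intro hv
        apply hP0
        rw [eq_sum_Mon P hPd]
        refine Finset.sum_eq_zero fun e' _ => ?_
        have h5 := congrFun hv e'
        simp only [Pi.zero_apply, mul_eq_zero, Polynomial.C_eq_zero] at h5
        rcases h5 with h5 | h5
        · rw [h5, monomial_zero]
        · exact absurd h5 (pow_ne_zero _ Polynomial.X_ne_zero)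
      · funext i
        set w : E := algebraMap K E (q' i c) + ∑ j, m j * algebraMap K E (q' i (T j)) with hw
        set yq : Fin k → E := fun l => algebraMap K E (eval (q' i) (Y l)) with hyq
        -- the value of `P` at the point
        have hval : eval (Fin.cons w yq : Fin (k + 1) → E) P = 0 := by
          let f : MvPolynomial (Fin V) E := aeval (Fin.cons (X c + ∑ j, C (m j) * X (T j))
            (fun l => map (algebraMap K E) (Y l)) : Fin (k + 1) → MvPolynomial (Fin V) E) P
          have hf0 : aeval τ f = 0 := by
            rw [← hP]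
            have h4 : (aeval τ).comp (aeval (Fin.cons (X c + ∑ j, C (m j) * X (T j))
                (fun l => map (algebraMap K E) (Y l)) : Fin (k + 1) → MvPolynomial (Fin V) E)) =
                (aeval (Fin.cons (τ c + ∑ j, algebraMap E G (m j) * τ (T j))
                  (fun l => aeval τ (Y l)) : Fin (k + 1) → G) :
                    MvPolynomial (Fin (k + 1)) E →ₐ[E] G) := by
              ext j
              refine Fin.cases ?_ (fun j => ?_) j
              · simp
              · simp [aeval_map_algebraMap]
            exact DFunLike.congr_fun h4 P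
          have h5 := hLD f hf0 (q' i) (hq' i)
          rw [← h5]
          have h4 : (aeval (fun v => algebraMap K E (q' i v))).comp
              (aeval (Fin.cons (X c + ∑ j, C (m j) * X (T j))
                (fun l => map (algebraMap K E) (Y l)) : Fin (k + 1) → MvPolynomial (Fin V) E)) =
                (aeval (Fin.cons w yq : Fin (k + 1) → E) :
                    MvPolynomial (Fin (k + 1)) E →ₐ[E] E) := by
            ext j
            refine Fin.cases ?_ (fun j => ?_) j
            · simp [hw]
            · simp only [AlgHom.comp_apply, aeval_X, Fin.cons_succ, hyq]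
              rw [aeval_map_algebraMap]
              exact MvPolynomial.aeval_algebraMap_apply E (q' i) (Y j)
          exact (DFunLike.congr_fun h4 P).symm
        have hentry : ∀ e' : Mon (k + 1) d, φ (A i e') = Polynomial.X ^ (e'.exp 0) *
            Polynomial.C (eval (Fin.cons w yq : Fin (k + 1) → E) (monomial e'.exp (1 : E))) := by
          intro e'
          have h4 : φ (A i e') = aeval (fun l => φ (row i l)) (monomial e'.exp (1 : K)) := by
            have h5 : φ.comp (aeval (row i)) = aeval (fun l => φ (row i l)) := by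
              ext j
              simp
            exact DFunLike.congr_fun h5 _
          have h0 : φ (row i 0) = Polynomial.X * Polynomial.C w := by
            simp only [φ, row, Fin.cons_zero, map_add, map_mul, map_sum, aeval_X, aeval_C, μ,
              Option.elim_none, Option.elim_some, hw, map_one, one_mul,
              Polynomial.algebraMap_apply]
            rw [mul_add, Finset.mul_sum]
            congr 1
            refine Finset.sum_congr rfl fun j _ => ?_
            ring
          have h1 : ∀ l : Fin k, φ (row i l.succ) = Polynomial.C (yq l) := by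
            intro l
            simp only [φ, row, Fin.cons_succ, aeval_C, hyq, Polynomial.algebraMap_apply]
          rw [h4, aeval_monomial, eval_monomial, map_one, one_mul, one_mul,
            Finsupp.prod_fintype _ _ (fun _ => pow_zero _),
            Finsupp.prod_fintype _ _ (fun _ => pow_zero _), Fin.prod_univ_succ,
            Fin.prod_univ_succ, h0, Fin.cons_zero]
          simp only [h1, Fin.cons_succ, Polynomial.C_mul, Polynomial.C_pow, map_prod]
          ring
        have hle : ∀ e' : Mon (k + 1) d, e'.exp 0 ≤ d := fun e' => by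
          have : e'.exp 0 = (e'.1 0 : ℕ) := rfl
          rw [this]
          have := (e'.1 0).2
          omega
        have hterm : ∀ e' : Mon (k + 1) d, (A.map φ) i e' *
            (Polynomial.C (P.coeff e'.exp) * Polynomial.X ^ (d - (e'.exp 0))) =
            Polynomial.X ^ d * Polynomial.C (eval (Fin.cons w yq : Fin (k + 1) → E)
              (monomial e'.exp (P.coeff e'.exp))) := by
          intro e'
          rw [Matrix.map_apply, hentry]
          have h6 : (Polynomial.X : Polynomial E) ^ d =
              Polynomial.X ^ (e'.exp 0) * Polynomial.X ^ (d - e'.exp 0) := by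
            rw [← pow_add, Nat.add_sub_cancel' (hle e')]
          have h7 : monomial e'.exp (P.coeff e'.exp) =
              C (P.coeff e'.exp) * monomial e'.exp (1 : E) := by
            rw [C_mul_monomial, mul_one]
          rw [h6, h7, map_mul, eval_C, Polynomial.C_mul]
          ring
        simp only [Matrix.mulVec, dotProduct, Pi.zero_apply]
        rw [Finset.sum_congr rfl fun e' _ => hterm e', ← Finset.mul_sum, ← map_sum, ← map_sum,
          ← eq_sum_Mon P hPd, hval, map_zero, mul_zero]
    have := h1 _ hAμ
    rw [hA0] at this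
    exact hdet' this
  refine ⟨e, fun j => ?_⟩
  refine isIntegral_mono (Algebra.adjoin_le ?_) (hmain (some j))
  rintro _ ⟨a, rfl⟩
  rcases a with - | a
  · have : ∑ j, algebraMap K E (l none j) * μ j = 1 := by
      rw [Fintype.sum_option]
      simp [l, μ]
    simp only [this]
    exact one_mem _
  · have : ∑ j, algebraMap K E (l (some a) j) * μ j = e a := by
      rw [Fintype.sum_option]
      simp [l, μ, e]
    simp only [this]
    exact Algebra.subset_adjoin ⟨a, rfl⟩

end Pool.Agent.QT
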