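import Pool.Agent.QT.Pts
import Pool.Agent.QT.Card

/-! # Small generic matrices: the induction -/

namespace Pool.Agent.QT

open MvPolynomial

variable {K L : Type} [Field K] [Field L] [Algebra K L]

/-- the vector of the linear forms `Σ_l M_jl t_l` -/
noncomputable def app {k r : ℕ} (M : Fin k → Fin r → K) (t : Fin r → L) : Fin k → L :=
  fun j => ∑ l, algebraMap K L (M j l) * t l

/-- substitution of the linear forms `Σ_l M_jl X_l` -/
noncomputable def sub {k r : ℕ} (M : Fin k → Fin r → K) :
    MvPolynomial (Fin k) K →ₐ[K] MvPolynomial (Fin r) K :=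
  aeval fun j => ∑ l, C (M j l) * X l

theorem aeval_sub {k r : ℕ} (M : Fin k → Fin r → K) (t : Fin r → L)
    (P : MvPolynomial (Fin k) K) : aeval t (sub M P) = aeval (app M t) P := by
  have h : (aeval t).comp (sub M) = (aeval (app M t) : MvPolynomial (Fin k) K →ₐ[K] L) := by
    ext j
    simp [sub, app]
  exact DFunLike.congr_fun h P

theorem eval_sub {k r : ℕ} (M : Fin k → Fin r → K) (q : Fin r → K)
    (P : MvPolynomial (Fin k) K) : eval q (sub M P) = eval (fun j => ∑ l, M j l * q l) P := by
  have := aeval_sub (L := K) M q P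
  have h2 : app M q = fun j => ∑ l, M j l * q l := by
    funext j
    simp [app]
  rwa [h2] at this

/-- the matrix of the monomials at the points `M q_i` -/
noncomputable def mat {k r d : ℕ} (M : Fin k → Fin r → K) (q : Mon k d → Fin r → K) :
    Matrix (Mon k d) (Mon k d) K :=
  Matrix.of fun i e => eval (q i) (sub M (monomial e.exp 1))

theorem mat_mulVec {k r d : ℕ} (M : Fin k → Fin r → K) (q : Mon k d → Fin r → K)
    (P : MvPolynomial (Fin k) K) (hP : P.totalDegree ≤ d) (i : Mon k d) :
    (mat M q).mulVec (fun e => P.coeff e.exp) i = eval (q i) (sub M P) := by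
  conv_rhs => rw [eq_sum_Mon P hP]
  rw [map_sum, map_sum]
  simp only [mat, Matrix.mulVec, dotProduct, Matrix.of_apply]
  refine Finset.sum_congr rfl fun e _ => ?_
  have : monomial e.exp (P.coeff e.exp) = C (P.coeff e.exp) * monomial e.exp (1 : K) := by
    rw [C_mul_monomial, mul_one]
  rw [this, map_mul, map_mul, ← algebraMap_eq, AlgHom.commutes, algebraMap_eq, eval_C, mul_comm]

/-- if the determinant is nonzero, a polynomial of degree `≤ d` that vanishes at all the points
`M q_i` is zero. -/
theorem eq_zero_of_det {k r d : ℕ} (M : Fin k → Fin r → K) (q : Mon k d → Fin r → K)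
    (hdet : (mat M q).det ≠ 0) (P : MvPolynomial (Fin k) K) (hP : P.totalDegree ≤ d)
    (h : ∀ i, eval (q i) (sub M P) = 0) : P = 0 := by
  have h0 : (mat M q).mulVec (fun e => P.coeff e.exp) = 0 := by
    funext i
    rw [mat_mulVec M q P hP i, h i]
    rfl
  have h1 : (fun e : Mon k d => P.coeff e.exp) = 0 := by
    by_contra hne
    exact hdet (Matrix.exists_mulVec_eq_zero_iff.1 ⟨_, hne, h0⟩)
  rw [eq_sum_Mon P hP]
  refine Finset.sum_eq_zero fun e _ => ?_
  have := congrFun h1 e
  simp only [Pi.zero_apply] at this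
  rw [this, monomial_zero]

theorem exists_det [IsAlgClosed K] {k r d : ℕ} (t : Fin r → L) (M : Fin k → Fin r → K)
    (hM : Good K d (app M t)) :
    ∃ q : Mon k d → Fin r → K, (∀ i, Pt K t (q i)) ∧ (mat M q).det ≠ 0 := by
  classical
  refine exists_points t (fun e : Mon k d => sub M (monomial e.exp 1)) fun c hc => ?_
  have h1 : (∑ e : Mon k d, C (c e) * sub M (monomial e.exp 1))
      = sub M (∑ e : Mon k d, monomial e.exp (c e)) := by
    rw [map_sum]
    refine Finset.sum_congr rfl fun e _ => ?_
    have : monomial e.exp (c e) = C (c e) * monomial e.exp (1 : K) := by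
      rw [C_mul_monomial, mul_one]
    rw [this, map_mul]
    congr 1
    exact ((sub M).commutes (c e)).symm
  rw [h1, aeval_sub] at hc
  have h2 := hM _ (totalDegree_sum_Mon c) hc
  funext e
  rw [← coeff_sum_Mon c e, h2, coeff_zero]
  rfl

/-- substitution of an affine polynomial for the first variable -/
noncomputable def subst {k : ℕ} (g : MvPolynomial (Fin k) K) :
    MvPolynomial (Fin (k + 1)) K →ₐ[K] MvPolynomial (Fin k) K :=
  aeval (Fin.cons g X)

theorem totalDegree_subst {k : ℕ} (g : MvPolynomial (Fin k) K) (hg : g.totalDegree ≤ 1)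
    (P : MvPolynomial (Fin (k + 1)) K) : (subst g P).totalDegree ≤ P.totalDegree := by
  rw [subst, aeval_def, eval₂_eq']
  refine (totalDegree_finsetSum_le fun e he => ?_)
  refine (totalDegree_mul _ _).trans ?_
  rw [algebraMap_eq, totalDegree_C, zero_add]
  refine (totalDegree_finsetProd _ _).trans ?_
  have h1 : ∀ i : Fin (k + 1),
      ((Fin.cons g X : Fin (k + 1) → MvPolynomial (Fin k) K) i ^ e i).totalDegree ≤ e i := by
    intro i
    refine (totalDegree_pow _ _).trans ?_
    have : ((Fin.cons g X : Fin (k + 1) → MvPolynomial (Fin k) K) i).totalDegree ≤ 1 := by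
      refine Fin.cases ?_ (fun j => ?_) i
      · simpa using hg
      · simp [totalDegree_X]
    calc e i * _ ≤ e i * 1 := Nat.mul_le_mul_left _ this
      _ = e i := mul_one _
  refine (Finset.sum_le_sum fun i _ => h1 i).trans ?_
  have h2 := le_totalDegree he
  rwa [Finsupp.sum_fintype _ _ (fun _ => rfl)] at h2

theorem dvd_of_subst_eq_zero {k : ℕ} (g : MvPolynomial (Fin k) K)
    (P : MvPolynomial (Fin (k + 1)) K) (h : subst g P = 0) :
    (X 0 - rename Fin.succ g) ∣ P := by
  rw [← Ideal.mem_span_singleton, ← Ideal.Quotient.eq_zero_iff_mem]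
  set I := Ideal.span {(X 0 - rename Fin.succ g : MvPolynomial (Fin (k + 1)) K)} with hI
  have h1 : (Ideal.Quotient.mkₐ K I)
      = ((Ideal.Quotient.mkₐ K I).comp ((rename Fin.succ).comp (subst g))) := by
    ext i
    refine Fin.cases ?_ (fun j => ?_) i
    · simp only [Ideal.Quotient.mkₐ_eq_mk, AlgHom.comp_apply, subst, aeval_X, Fin.cons_zero]
      rw [Ideal.Quotient.mk_eq_mk_iff_sub_mem, hI]
      exact Ideal.mem_span_singleton_self _
    · simp [subst]
  have h2 := DFunLike.congr_fun h1 P
  simpa [h] using h2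

theorem totalDegree_X_sub {k : ℕ} (g : MvPolynomial (Fin k) K) :
    1 ≤ (X 0 - rename Fin.succ g : MvPolynomial (Fin (k + 1)) K).totalDegree := by
  by_contra h
  have h0 : (X 0 - rename Fin.succ g : MvPolynomial (Fin (k + 1)) K).totalDegree = 0 := by omega
  rw [totalDegree_eq_zero_iff_eq_C] at h0
  have h1 := congrArg (aeval (R := K) (Fin.cons (1 : K) (fun _ => 0) : Fin (k + 1) → K)) h0
  have h2 := congrArg (aeval (R := K) (Fin.cons (0 : K) (fun _ => 0) : Fin (k + 1) → K)) h0
  rw [map_sub, aeval_X, aeval_rename, Fin.cons_zero, aeval_C] at h1 h2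
  have e1 : ((Fin.cons (1 : K) (fun _ => 0) : Fin (k + 1) → K) ∘ Fin.succ) = fun _ => 0 := by
    funext j
    simp
  have e2 : ((Fin.cons (0 : K) (fun _ => 0) : Fin (k + 1) → K) ∘ Fin.succ) = fun _ => 0 := by
    funext j
    simp
  rw [e1] at h1
  rw [e2] at h2
  rw [← h2] at h1
  simp at h1

/-- the affine polynomial with coefficients `b` and constant term `b0` -/
noncomputable def aff {k : ℕ} (b0 : K) (b : Fin k → K) : MvPolynomial (Fin k) K :=
  C b0 + ∑ j, C (b j) * X j

theorem totalDegree_aff {k : ℕ} (b0 : K) (b : Fin k → K) : (aff b0 b).totalDegree ≤ 1 := by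
  refine (totalDegree_add _ _).trans (max_le (by simp) ?_)
  refine totalDegree_finsetSum_le fun j _ => ?_
  refine (totalDegree_mul _ _).trans ?_
  simp [totalDegree_X]

theorem exists_affine [IsAlgClosed K] {k r d : ℕ} (t : Fin r → L)
    (hB : ∀ (b : Fin r → K) (b0 : K), algebraMap K L b0 + ∑ i, algebraMap K L (b i) * t i = 0 →
      b0 = 0 ∧ ∀ i, b i = 0)
    (M : Fin k → Fin r → K) (q : Mon k d → Fin r → K) (hr : Fintype.card (Mon k d) ≤ r) :
    ∃ (m : Fin r → K) (b0 : K) (b : Fin k → K),
      (∀ i, ∑ l, m l * q i l = b0 + ∑ j, b j * ∑ l, M j l * q i l) ∧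
      (∑ l, algebraMap K L (m l) * t l) - (algebraMap K L b0 + ∑ j, algebraMap K L (b j) * app M t j)
        ≠ 0 := by
  classical
  let Φ : (K × (Fin k → K)) × (Fin r → K) →ₗ[K] (Mon k d → K) :=
    { toFun := fun v i => (∑ l, v.2 l * q i l) - (v.1.1 + ∑ j, v.1.2 j * ∑ l, M j l * q i l)
      map_add' := by
        intro x y
        funext i
        simp only [Prod.fst_add, Prod.snd_add, Pi.add_apply, add_mul, Finset.sum_add_distrib]
        ring
      map_smul' := by
        intro c x
        funext i
        simp only [Prod.smul_fst, Prod.smul_snd, Pi.smul_apply, smul_eq_mul, RingHom.id_apply,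
          mul_assoc, ← Finset.mul_sum]
        ring }
  let ι : (Fin k → K) →ₗ[K] (K × (Fin k → K)) × (Fin r → K) :=
    { toFun := fun b => ((0, b), fun l => ∑ j, b j * M j l)
      map_add' := by
        intro x y
        ext <;> simp [add_mul, Finset.sum_add_distrib]
      map_smul' := by
        intro c x
        ext <;> simp [mul_assoc, Finset.mul_sum] }
  have hker : ¬ LinearMap.ker Φ ≤ LinearMap.range ι := by
    intro hle
    have h1 := LinearMap.finrank_range_add_finrank_ker Φ
    have h2 : Module.finrank K ((K × (Fin k → K)) × (Fin r → K)) = 1 + k + r := by simp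
    have h3 : Module.finrank K (LinearMap.range Φ) ≤ r := by
      refine (Submodule.finrank_le _).trans ?_
      rwa [Module.finrank_fintype_fun_eq_card]
    have h4 : Module.finrank K (LinearMap.range ι) ≤ k := by
      refine (LinearMap.finrank_range_le ι).trans ?_
      simp
    have h5 := Submodule.finrank_mono hle
    omega
  rw [SetLike.not_le_iff_exists] at hker
  obtain ⟨⟨⟨b0, b⟩, m⟩, hv, hnv⟩ := hker
  refine ⟨m, b0, b, fun i => ?_, fun h0 => hnv ?_⟩
  · have := congrFun (LinearMap.mem_ker.1 hv) i
    simp only [Φ, LinearMap.coe_mk, AddHom.coe_mk, Pi.zero_apply] at this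
    exact sub_eq_zero.1 this
  · have h1 : algebraMap K L (-b0) + ∑ l, algebraMap K L (m l - ∑ j, b j * M j l) * t l = 0 := by
      rw [← h0]
      simp only [map_neg, map_sub, map_sum, map_mul, sub_mul, Finset.sum_sub_distrib, app,
        Finset.mul_sum, Finset.sum_mul]
      rw [Finset.sum_comm]
      simp only [mul_assoc]
      ring
    obtain ⟨h2, h3⟩ := hB _ _ h1
    refine ⟨b, ?_⟩
    have h4 : b0 = 0 := neg_eq_zero.1 h2
    have h5 : m = fun l => ∑ j, b j * M j l := by
      funext l
      exact sub_eq_zero.1 (h3 l)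
    subst h4
    rw [h5]
    rfl

theorem exists_step [IsAlgClosed K] {k r d : ℕ} (t : Fin r → L)
    (hB : ∀ (b : Fin r → K) (b0 : K), algebraMap K L b0 + ∑ i, algebraMap K L (b i) * t i = 0 →
      b0 = 0 ∧ ∀ i, b i = 0)
    (M : Fin k → Fin r → K) (hM : Good K d (app M t)) (hr : Fintype.card (Mon k d) ≤ r) :
    ∃ m : Fin r → K, Good K d (app (Fin.cons m M : Fin (k + 1) → Fin r → K) t) := by
  obtain ⟨q, hq, hdet⟩ := exists_det t M hM
  obtain ⟨m, b0, b, hmq, hmt⟩ := exists_affine t hB M q hr
  refine ⟨m, fun P => ?_⟩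
  set M' : Fin (k + 1) → Fin r → K := Fin.cons m M with hM'
  have hap : app M' t = Fin.cons (∑ l, algebraMap K L (m l) * t l) (app M t) := by
    funext j
    refine Fin.cases ?_ (fun j => ?_) j <;> simp [hM', app]
  -- induction on the degree
  have key : ∀ n : ℕ, ∀ P : MvPolynomial (Fin (k + 1)) K, P.totalDegree ≤ n → n ≤ d →
      aeval (app M' t) P = 0 → P = 0 := by
    intro n
    induction n with
    | zero =>
      intro P hP _ h
      have h0 : P.totalDegree = 0 := by omega
      rw [totalDegree_eq_zero_iff_eq_C] at h0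
      rw [h0, aeval_C] at h
      have h2 : coeff 0 P = 0 := (FaithfulSMul.algebraMap_injective K L) (by rw [h, map_zero])
      rw [h0, h2, C_0]
    | succ n ih =>
      intro P hP hn h
      by_contra hne
      have h1 : subst (aff b0 b) P = 0 := by
        refine eq_zero_of_det M q hdet _
          ((totalDegree_subst _ (totalDegree_aff b0 b) P).trans (hP.trans hn)) fun i => ?_
        have h2 : eval (q i) (sub M' P) = 0 := by
          refine hq i _ ?_
          rw [aeval_sub, h]
        rw [eval_sub] at h2 ⊢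
        have h3 : eval (fun j => ∑ l, M j l * q i l) (subst (aff b0 b) P)
            = eval (fun j => ∑ l, M' j l * q i l) P := by
          have h4 : (aeval (fun j => ∑ l, M j l * q i l)).comp (subst (aff b0 b))
              = (aeval (fun j => ∑ l, M' j l * q i l) :
                  MvPolynomial (Fin (k + 1)) K →ₐ[K] K) := by
            ext j
            refine Fin.cases ?_ (fun j => ?_) j
            · simp [subst, hM', aff, hmq i]
            · simp [subst, hM']
          exact DFunLike.congr_fun h4 P
        rw [h3, h2]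
      obtain ⟨P1, hP1⟩ := dvd_of_subst_eq_zero _ P h1
      have hX := totalDegree_X_sub (aff b0 b)
      have hP1ne : P1 ≠ 0 := by
        rintro rfl
        exact hne (by rw [hP1, mul_zero])
      have hXne : (X 0 - rename Fin.succ (aff b0 b) : MvPolynomial (Fin (k + 1)) K) ≠ 0 := by
        intro h0
        rw [h0] at hX
        simp at hX
      have hdeg := totalDegree_mul_of_isDomain hXne hP1ne
      rw [← hP1] at hdeg
      refine hP1ne (ih P1 (by omega) (by omega) ?_)
      rw [hP1, map_mul, mul_eq_zero] at h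
      refine h.resolve_left fun h5 => hmt ?_
      rw [← h5, hap]
      simp [aff]
  intro hP h
  exact key d P hP le_rfl h

theorem good_zero {d : ℕ} (y : Fin 0 → L) : Good K d y := by
  intro P _ h
  obtain ⟨c, rfl⟩ : ∃ c : K, P = C c := ⟨_, eq_C_of_isEmpty P⟩
  rw [aeval_C] at h
  have h2 : c = 0 := (FaithfulSMul.algebraMap_injective K L) (by rw [h, map_zero])
  rw [h2, C_0]

/-- There is a matrix over `K` such that the `s` linear forms satisfy no relation of degree
at most `d`. -/
theorem exists_good [IsAlgClosed K] {r d : ℕ} (t : Fin r → L)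
    (hB : ∀ (b : Fin r → K) (b0 : K), algebraMap K L b0 + ∑ i, algebraMap K L (b i) * t i = 0 →
      b0 = 0 ∧ ∀ i, b i = 0) :
    ∀ s : ℕ, (s - 1 + d).choose d ≤ r → ∃ M : Fin s → Fin r → K, Good K d (app M t) := by
  intro s
  induction s with
  | zero => exact fun _ => ⟨Fin.elim0, good_zero _⟩
  | succ k ih =>
    intro hr
    rw [Nat.add_sub_cancel] at hr
    obtain ⟨M, hM⟩ := ih ((Nat.choose_le_choose d (by omega)).trans hr)
    obtain ⟨m, hm⟩ := exists_step t hB M hM (by rwa [card_Mon])
    exact ⟨_, hm⟩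

/-- The bad matrices are zeros of a nonzero polynomial. -/
theorem exists_poly [IsAlgClosed K] {r s d : ℕ} (t : Fin r → L)
    (hB : ∀ (b : Fin r → K) (b0 : K), algebraMap K L b0 + ∑ i, algebraMap K L (b i) * t i = 0 →
      b0 = 0 ∧ ∀ i, b i = 0) (hr : (s - 1 + d).choose d ≤ r) :
    ∃ F : MvPolynomial (Fin s × Fin r) K, F ≠ 0 ∧
      ∀ M : Fin s → Fin r → K, ¬ Good K d (app M t) → eval (fun p => M p.1 p.2) F = 0 := by
  classical
  obtain ⟨M0, hM0⟩ := exists_good t hB s hr
  obtain ⟨q, hq, hdet⟩ := exists_det t M0 hM0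
  let A : Matrix (Mon s d) (Mon s d) (MvPolynomial (Fin s × Fin r) K) :=
    Matrix.of fun i e => aeval (fun j => ∑ l, X (j, l) * C (q i l)) (monomial e.exp (1 : K))
  have hA : ∀ M : Fin s → Fin r → K, eval (fun p => M p.1 p.2) A.det = (mat M q).det := by
    intro M
    rw [RingHom.map_det]
    congr 1
    ext i e
    simp only [RingHom.mapMatrix_apply, Matrix.map_apply, A, Matrix.of_apply, mat]
    rw [eval_sub]
    have h4 : (aeval (fun p : Fin s × Fin r => M p.1 p.2)).comp
          (aeval (fun j => ∑ l, X (j, l) * C (q i l)))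
        = (aeval (fun j => ∑ l, M j l * q i l) : MvPolynomial (Fin s) K →ₐ[K] K) := by
      ext j
      simp
    exact DFunLike.congr_fun h4 _
  refine ⟨A.det, fun h0 => hdet ?_, fun M hM => ?_⟩
  · rw [← hA, h0, map_zero]
  · rw [hA]
    by_contra hd
    refine hM fun P hP h => eq_zero_of_det M q hd P hP fun i => hq i _ ?_
    rw [aeval_sub, h]

end Pool.Agent.QT
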