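import Pool.Agent.QT.Tuples
import Pool.Agent.QR.Elliptic
import Pool.Agent.BKR.Baker

/-! # Rows of logarithms and rows of elliptic logarithms -/

namespace Pool.Agent.QT

open Pool.Agent.EBM

/-- `t` is a `ℚ`-linearly independent family of logarithms of algebraic numbers, or a family of
elliptic logarithms of algebraic points (periods allowed), linearly independent over the
endomorphism field: then `1, t_j` are linearly independent over the algebraic numbers. -/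
theorem indepAB {r : ℕ} (t : Fin r → ℂ)
    (h : (LinearIndependent ℚ t ∧ ∀ j, IsAlgebraic ℚ (Complex.exp (t j))) ∨
      ∃ ω₁ ω₂ : ℂ, (ω₂ / ω₁).im ≠ 0 ∧
        IsAlgebraic ℚ (60 * ∑' q : ℤ × ℤ,
          if q = 0 then (0 : ℂ) else 1 / ((q.1 : ℂ) * ω₁ + (q.2 : ℂ) * ω₂) ^ 4) ∧
        IsAlgebraic ℚ (140 * ∑' q : ℤ × ℤ,
          if q = 0 then (0 : ℂ) else 1 / ((q.1 : ℂ) * ω₁ + (q.2 : ℂ) * ω₂) ^ 6) ∧
        (∀ j, (∃ a b : ℤ, t j = (a : ℂ) * ω₁ + (b : ℂ) * ω₂) ∨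
          IsAlgebraic ℚ (1 / t j ^ 2 + ∑' q : ℤ × ℤ,
            if q = 0 then (0 : ℂ) else
              (1 / (t j - ((q.1 : ℂ) * ω₁ + (q.2 : ℂ) * ω₂)) ^ 2
                - 1 / ((q.1 : ℂ) * ω₁ + (q.2 : ℂ) * ω₂) ^ 2))) ∧
        ∀ a : Fin r → ℂ, (∀ j, ∃ p q p' q' : ℚ,
          a j * ω₁ = (p : ℂ) * ω₁ + (q : ℂ) * ω₂ ∧
            a j * ω₂ = (p' : ℂ) * ω₁ + (q' : ℂ) * ω₂) →
          ∑ j, a j * t j = 0 → ∀ j, a j = 0)
    (b : Fin r → ℂ) (b0 : ℂ) (hb : ∀ j, IsAlgebraic ℚ (b j)) (hb0 : IsAlgebraic ℚ b0)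
    (h0 : b0 + ∑ j, b j * t j = 0) : b0 = 0 ∧ ∀ j, b j = 0 := by
  rcases h with ⟨ht, he⟩ | ⟨ω₁, ω₂, him, hg2, hg3, he, hind⟩
  · exact Pool.Agent.BKR.baker t ht he b b0 hb hb0 h0
  · obtain ⟨L, rfl, rfl⟩ := ZCM.exists_periodPair ω₁ ω₂ him
    have h2 : IsAlgebraic ℚ L.g₂ := by rw [ZCM.g₂_eq_tsum]; exact hg2
    have h3 : IsAlgebraic ℚ L.g₃ := by rw [ZCM.g₃_eq_tsum]; exact hg3
    refine ebaker L h2 h3 t (fun i => ?_) (fun c hc => hind c fun j =>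
      (QR.endF_iff L (c j)).1 (hc j)) b b0 hb hb0 h0
    rcases he i with ⟨a, b, hab⟩ | h
    · exact Or.inl (PeriodPair.mem_lattice.2 ⟨a, b, hab.symm⟩)
    · exact Or.inr (by rw [CHU.P_eq_tsum]; exact h)

end Pool.Agent.QT
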